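import Pool.Graph.R_seed8.R592.Hd.Force

/-!
# Products of a forcing with conditions of mixed sizes and a measure algebra

The conditions of the first factor are partial functions from `S` to `K`. Each element of `S` has
a level, and a condition has at most `θ i` elements of level at most `i` in its domain. Its values
at the points of level `i` have level at most `i`.

The lemmas on this page follow the corresponding ones of `Pool.Agent.R592.Hd` (where the
conditions are countable partial functions).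
-/

set_option autoImplicit false
set_option linter.unusedSectionVars false

namespace Pool.Agent.H630.MB

open Cardinal MeasureTheory Set Filter Topology
open Pool.Agent.TH773.PSet Pool.Agent.R593.Rnd Pool.Agent.R592.Ent
open scoped ENNReal

/-- Partial functions `a` from `S` to `K` such that for each `i : I` at most `θ i` elements of the
domain have level at most `i`, and such that the level of the value at `t` is at most the level
of `t`. -/
structure HC {I K S : Type} [LinearOrder I] (θ : I → Cardinal.{0}) (lv : K → I)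
    (lev : S → I) : Type where
  dom : Set S
  val : S → K
  small : ∀ i, #{t // t ∈ dom ∧ lev t ≤ i} ≤ θ i
  lvl : ∀ t ∈ dom, lv (val t) ≤ lev t

variable {I K S : Type} [LinearOrder I] {θ : I → Cardinal.{0}} {lv : K → I} {lev : S → I}

/-- A condition is stronger than the conditions which it extends. -/
instance : Preorder (HC θ lv lev) where
  le a b := b.dom ⊆ a.dom ∧ ∀ t ∈ b.dom, a.val t = b.val t
  le_refl a := ⟨subset_rfl, fun _ _ => rfl⟩
  le_trans a b c h h' := ⟨h'.1.trans h.1, fun t ht => (h.2 t (h'.1 ht)).trans (h'.2 t ht)⟩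

theorem le_def {a b : HC θ lv lev} :
    a ≤ b ↔ b.dom ⊆ a.dom ∧ ∀ t ∈ b.dom, a.val t = b.val t := Iff.rfl

/-- two conditions agree on the elements of `L` which are in both domains -/
def AgreeOn (L : Set S) (a b : HC θ lv lev) : Prop :=
  ∀ t ∈ a.dom, t ∈ b.dom → t ∈ L → a.val t = b.val t

/-- two conditions agree on the intersection of the domains -/
def Agree (a b : HC θ lv lev) : Prop := ∀ t ∈ a.dom, t ∈ b.dom → a.val t = b.val t

theorem Agree.symm {a b : HC θ lv lev} (h : Agree a b) : Agree b a :=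
  fun t h1 h2 => (h t h2 h1).symm

theorem AgreeOn.symm {L : Set S} {a b : HC θ lv lev} (h : AgreeOn L a b) : AgreeOn L b a :=
  fun t h1 h2 h3 => (h t h2 h1 h3).symm

theorem Agree.on {a b : HC θ lv lev} (h : Agree a b) (L : Set S) : AgreeOn L a b :=
  fun t h1 h2 _ => h t h1 h2

theorem agree_of_le {a b c : HC θ lv lev} (h : c ≤ a) (h' : c ≤ b) : Agree a b :=
  fun t h1 h2 => (h.2 t h1).symm.trans (h'.2 t h2)

theorem Agree.of_le {a b c : HC θ lv lev} (h : Agree a b) (h' : b ≤ c) : Agree a c :=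
  fun t h1 h2 => (h t h1 (h'.1 h2)).trans (h'.2 t h2)

theorem Agree.of_le_left {a b c : HC θ lv lev} (h : Agree a b) (h' : a ≤ c) : Agree c b :=
  (h.symm.of_le h').symm

/-- functions which agree pairwise can be glued -/
theorem glue_fun {ι S' K' : Type*} [Nonempty K'] (D : ι → Set S') (f : ι → S' → K')
    (h : ∀ i j t, t ∈ D i → t ∈ D j → f i t = f j t) :
    ∃ v : S' → K', ∀ i, ∀ t ∈ D i, v t = f i t := by
  classical
  let v : S' → K' := fun t =>
    if h : ∃ i, t ∈ D i then f h.choose t else Classical.arbitrary K'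
  refine ⟨v, fun i t ht => ?_⟩
  have h1 : ∃ i, t ∈ D i := ⟨i, ht⟩
  simp only [v, dif_pos h1]
  exact h _ _ t h1.choose_spec ht

theorem mk_low_mono {D D' : Set S} (h : D ⊆ D') (i : I) :
    #{t // t ∈ D ∧ lev t ≤ i} ≤ #{t // t ∈ D' ∧ lev t ≤ i} :=
  mk_le_of_injective (f := fun t => ⟨t.1, h t.2.1, t.2.2⟩) fun _ _ h' =>
    Subtype.ext (congrArg (fun x : {t // t ∈ D' ∧ lev t ≤ i} => x.1) h')

section Glue

variable [Nonempty K] (hθ : ∀ i, ℵ₀ ≤ θ i)

include hθ

/-- the common extension of countably many conditions which agree pairwise -/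
theorem exists_glue {ι : Type} (f : ι → HC θ lv lev) (s : Set ι) (hs : s.Countable)
    (h : ∀ i ∈ s, ∀ j ∈ s, Agree (f i) (f j)) :
    ∃ b : HC θ lv lev, (∀ i ∈ s, b ≤ f i) ∧ b.dom = ⋃ i ∈ s, (f i).dom := by
  obtain ⟨v, hv⟩ := glue_fun (fun i : s => (f i.1).dom) (fun i => (f i.1).val)
    fun i j t h1 h2 => h i.1 i.2 j.1 j.2 t h1 h2
  refine ⟨⟨⋃ i ∈ s, (f i).dom, v, fun i => ?_, fun t ht => ?_⟩, fun i hi => ⟨?_, fun t ht => ?_⟩,
    rfl⟩
  · have h1 : {t | t ∈ ⋃ i ∈ s, (f i).dom ∧ lev t ≤ i} =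
        ⋃ j : s, {t | t ∈ (f j.1).dom ∧ lev t ≤ i} := by
      ext t
      simp only [mem_ofPred_eq, mem_iUnion]
      constructor
      · rintro ⟨⟨j, hj, h1⟩, h2⟩
        exact ⟨⟨j, hj⟩, h1, h2⟩
      · rintro ⟨⟨j, hj⟩, h1, h2⟩
        exact ⟨⟨j, hj, h1⟩, h2⟩
    show #({t | t ∈ ⋃ i ∈ s, (f i).dom ∧ lev t ≤ i} : Set S) ≤ θ i
    rw [h1]
    refine mk_iUnion_le_sum_mk.trans ((sum_le_sum _ (fun _ => θ i) fun j : s =>
      (f j.1).small i).trans ?_)
    rw [sum_const']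
    exact (mul_le_mul' hs.le_aleph0 le_rfl).trans
      (aleph0_mul_eq (hθ i)).le
  · obtain ⟨i, hi, h1⟩ := mem_iUnion₂.1 ht
    show lv (v t) ≤ lev t
    rw [hv ⟨i, hi⟩ t h1]
    exact (f i).lvl t h1
  · exact subset_biUnion_of_mem (u := fun i => (f i).dom) hi
  · exact hv ⟨i, hi⟩ t ht

theorem exists_glue2 {a b : HC θ lv lev} (h : Agree a b) :
    ∃ c, c ≤ a ∧ c ≤ b ∧ ∀ t ∈ c.dom, t ∈ a.dom ∨ t ∈ b.dom := by
  obtain ⟨c, hc, hdom⟩ := exists_glue hθ (fun i : Bool => if i then a else b) Set.univ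
    (countable_univ) (by
      intro i _ j _
      cases i <;> cases j
      · exact fun _ _ _ => rfl
      · exact h.symm
      · exact h
      · exact fun _ _ _ => rfl)
  refine ⟨c, hc true trivial, hc false trivial, fun t ht => ?_⟩
  rw [hdom] at ht
  obtain ⟨i, -, hi⟩ := mem_iUnion₂.1 ht
  cases i
  · exact Or.inr hi
  · exact Or.inl hi

theorem exists_ext (a : HC θ lv lev) (t : S) (ht : t ∉ a.dom) (w : K) (hw : lv w ≤ lev t) :
    ∃ a', a' ≤ a ∧ t ∈ a'.dom ∧ a'.val t = w := by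
  classical
  have hval : ∀ t' ∈ a.dom, Function.update a.val t w t' = a.val t' := fun t' ht' =>
    Function.update_of_ne (fun h => ht (by rw [← h]; exact ht')) _ _
  refine ⟨⟨insert t a.dom, Function.update a.val t w, fun i => ?_, fun t' ht' => ?_⟩,
    ⟨subset_insert _ _, hval⟩, mem_insert _ _, by
      show Function.update a.val t w t = w
      exact Function.update_self _ _ _⟩
  · have h1 : {t' | t' ∈ insert t a.dom ∧ lev t' ≤ i} ⊆
        insert t {t' | t' ∈ a.dom ∧ lev t' ≤ i} := by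
      rintro t' ⟨h1 | h1, h2⟩
      · exact Or.inl h1
      · exact Or.inr ⟨h1, h2⟩
    show #({t' | t' ∈ insert t a.dom ∧ lev t' ≤ i} : Set S) ≤ θ i
    refine (mk_le_mk_of_subset h1).trans (mk_insert_le.trans ?_)
    calc _ ≤ θ i + 1 := add_le_add_left (a.small i) 1
      _ = θ i := add_one_eq (hθ i)
  · rcases ht' with rfl | h1
    · rw [Function.update_self]
      exact hw
    · rw [hval t' h1]
      exact a.lvl t' h1

/-- countable decreasing sequences have lower bounds -/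
theorem exists_lower (f : ℕ → HC θ lv lev) (h : ∀ n, f (n + 1) ≤ f n) : ∃ b, ∀ n, b ≤ f n := by
  have h1 : Antitone f := antitone_nat_of_succ_le h
  obtain ⟨c, hc, -⟩ := exists_glue hθ f Set.univ countable_univ (by
    intro i _ j _
    rcases le_total i j with hij | hij
    · exact agree_of_le (h1 hij) le_rfl
    · exact agree_of_le le_rfl (h1 hij))
  exact ⟨c, fun n => hc n trivial⟩

/-! ### The core lemma -/

section Core

variable {Ω : Type} [MeasurableSpace Ω] {μ : Measure Ω} [IsFiniteMeasure μ]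

theorem core {Ψ : Set (HC θ lv lev × Cond μ)} (hΨ : Down Ψ) (hd : ∀ p, ∃ q ≤ p, q ∈ Ψ)
    (a : HC θ lv lev) : ∃ a' ≤ a, ∀ b : Cond μ, ∃ b' ≤ b, (a', b') ∈ Ψ := by
  classical
  let 𝒮 : Set (Set (HC θ lv lev × Cond μ)) := {T | (∀ t ∈ T, t ∈ Ψ ∧ t.1 ≤ a) ∧
    ∀ t ∈ T, ∀ t' ∈ T, t ≠ t' → Agree t.1 t'.1 ∧ ¬ ∃ s, s ≤ t.2 ∧ s ≤ t'.2}
  obtain ⟨T, hT⟩ : ∃ T, Maximal (fun T => T ∈ 𝒮) T := by
    refine zorn_subset 𝒮 fun c hc hchain => ⟨⋃₀ c, ⟨?_, ?_⟩, fun s hs => subset_sUnion_of_mem hs⟩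
    · rintro t ⟨s, hs, hts⟩
      exact (hc hs).1 t hts
    · rintro t ⟨s, hs, hts⟩ t' ⟨s', hs', hts'⟩ hne
      rcases hchain.total hs hs' with h | h
      · exact (hc hs').2 t (h hts) t' hts' hne
      · exact (hc hs).2 t hts t' (h hts') hne
  have hTc : T.Countable := by
    by_contra hcon
    obtain ⟨x, x', hne, s, hs, hs'⟩ := ccc_cond (fun t : T => t.1.2) hcon
    exact (hT.prop.2 x.1 x.2 x'.1 x'.2 fun h => hne (Subtype.ext h)).2 ⟨s, hs, hs'⟩
  let T' : Set (Option (HC θ lv lev × Cond μ)) := insert none (some '' T)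
  let f : Option (HC θ lv lev × Cond μ) → HC θ lv lev := fun t => t.elim a fun t => t.1
  obtain ⟨a', ha', -⟩ := exists_glue hθ f T' ((hTc.image _).insert none) (by
    rintro i (rfl | ⟨t, ht, rfl⟩) j (rfl | ⟨t', ht', rfl⟩)
    · exact fun _ _ _ => rfl
    · exact agree_of_le (hT.prop.1 t' ht').2 le_rfl
    · exact agree_of_le le_rfl (hT.prop.1 t ht).2
    · by_cases h : t = t'
      · rw [h]
        exact fun _ _ _ => rfl
      · exact (hT.prop.2 t ht t' ht' h).1)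
  have haa : a' ≤ a := ha' none (mem_insert _ _)
  have hat : ∀ t ∈ T, a' ≤ t.1 := fun t ht => ha' (some t) (mem_insert_of_mem _ ⟨t, ht, rfl⟩)
  refine ⟨a', haa, fun b => ?_⟩
  obtain ⟨⟨a2, b2⟩, hle, hmem⟩ := hd (a', b)
  by_cases hex : ∃ t ∈ T, ∃ s, s ≤ b2 ∧ s ≤ t.2
  · obtain ⟨t, ht, s, hs, hs'⟩ := hex
    exact ⟨s, hs.trans hle.2, hΨ t (hT.prop.1 t ht).1 _ ⟨hat t ht, hs'⟩⟩
  · exfalso
    push Not at hex
    have hin : insert (a2, b2) T ∈ 𝒮 := by
      constructor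
      · rintro t (rfl | ht)
        · exact ⟨hmem, hle.1.trans haa⟩
        · exact hT.prop.1 t ht
      · rintro t (rfl | ht) t' (rfl | ht') hne
        · exact absurd rfl hne
        · refine ⟨agree_of_le le_rfl (hle.1.trans (hat t' ht')), ?_⟩
          rintro ⟨s, hs, hs'⟩
          exact hex t' ht' s hs hs'
        · refine ⟨agree_of_le (hle.1.trans (hat t ht)) le_rfl, ?_⟩
          rintro ⟨s, hs, hs'⟩
          exact hex t ht s hs' hs
        · exact hT.prop.2 t ht t' ht' hne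
    have h1 : (a2, b2) ∈ T := hT.le_of_ge hin (subset_insert _ _) (mem_insert _ _)
    exact hex _ h1 b2 le_rfl le_rfl

/-- the section of a statement -/
theorem exists_section {φ : Set (HC θ lv lev × Cond μ)} (hφ : Reg φ) (a : HC θ lv lev) :
    ∃ E : Set Ω, MeasurableSet E ∧ ∀ b, (a, b) ∈ φ ↔ b ∈ AE μ E := by
  obtain ⟨E, hE, h⟩ := exists_rep1 {b : Cond μ | (a, b) ∈ φ}
  refine ⟨E, hE, fun b => ?_⟩
  rw [← h]
  constructor
  · intro hb q hq
    exact ⟨q, le_rfl, b, hb, hq⟩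
  · intro hb
    refine hφ.2 _ fun ⟨a1, b1⟩ hle => ?_
    obtain ⟨r, hr, s, hs, hrs⟩ := hb b1 hle.2
    exact ⟨(a1, r), ⟨le_rfl, hr⟩, hφ.1 _ hs _ ⟨hle.1, hrs⟩⟩

theorem decide1 {φ : Set (HC θ lv lev × Cond μ)} (hφ : Reg φ) (a : HC θ lv lev) :
    ∃ a' ≤ a, ∃ E : Set Ω, MeasurableSet E ∧ ∀ a'' ≤ a', ∀ b, ((a'', b) ∈ φ ↔ b ∈ AE μ E) := by
  obtain ⟨a', ha', h⟩ := core hθ (Ψ := φ ∪ fnot φ) (by
    rintro p (hp | hp) q hq
    · exact Or.inl (hφ.1 p hp q hq)
    · exact Or.inr (down_fnot _ p hp q hq)) (by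
    intro p
    by_cases hp : ∃ q ≤ p, q ∈ φ
    · obtain ⟨q, hq, hq'⟩ := hp
      exact ⟨q, hq, Or.inl hq'⟩
    · push Not at hp
      exact ⟨p, le_rfl, Or.inr hp⟩) a
  obtain ⟨E, hE, h'⟩ := exists_section hθ hφ a'
  refine ⟨a', ha', E, hE, fun a'' ha'' b => ⟨fun hb => ?_, fun hb => ?_⟩⟩
  · rw [mem_AE]
    by_contra hne
    have hne' : μ (b.1 ∩ Eᶜ) ≠ 0 := hne
    obtain ⟨b', hb', hb2⟩ := h (restr b Eᶜ hE.compl hne')
    rcases hb2 with hb2 | hb2
    · exact not_AE_compl ((h' _).1 hb2) (down_AE _ _ (restr_mem b Eᶜ hE.compl hne') _ hb')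
    · exact hb2 (a'', b') ⟨ha'', le_rfl⟩
        (hφ.1 _ hb _ ⟨le_rfl, hb'.trans (restr_le _ _ _ _)⟩)
  · exact hφ.1 _ ((h' b).2 hb) _ ⟨ha'', le_rfl⟩

theorem decide_seq {φ : ℕ → Set (HC θ lv lev × Cond μ)} (hφ : ∀ n, Reg (φ n))
    (a : HC θ lv lev) :
    ∃ a' ≤ a, ∃ E : ℕ → Set Ω, ∀ n, MeasurableSet (E n) ∧
      ∀ a'' ≤ a', ∀ b, ((a'', b) ∈ φ n ↔ b ∈ AE μ (E n)) := by
  choose g hg E hE hE' using fun (n : ℕ) (a : HC θ lv lev) => decide1 hθ (hφ n) a
  let f : ℕ → HC θ lv lev := fun n => Nat.rec (g 0 a) (fun n c => g (n + 1) c) n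
  have hf : ∀ n, f (n + 1) ≤ f n := fun n => hg (n + 1) (f n)
  obtain ⟨a', ha'⟩ := exists_lower hθ f hf
  refine ⟨a', (ha' 0).trans (hg 0 a), fun n => if n = 0 then E 0 a else E n (f (n - 1)),
    fun n => ?_⟩
  cases n with
  | zero =>
    simp only [if_true]
    exact ⟨hE 0 a, fun a'' ha'' b => hE' 0 a a'' (ha''.trans (ha' 0)) b⟩
  | succ n =>
    simp only [Nat.succ_ne_zero, if_false, Nat.add_sub_cancel]
    exact ⟨hE (n + 1) (f n), fun a'' ha'' b => hE' (n + 1) (f n) a'' (ha''.trans (ha' (n + 1))) b⟩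

end Core

end Glue

end Pool.Agent.H630.MB
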