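import Pool.Agent.H630.MB.Fusion

/-!
# Higher dominating numbers in the extension
-/

set_option autoImplicit false
set_option linter.unusedSectionVars false

namespace Pool.Agent.H630.MB

open Cardinal MeasureTheory Set Filter Topology
open Pool.Agent.TH773.PSet Pool.Agent.R593.Rnd Pool.Agent.R592.Ent
open Pool.Agent.R592.Hd (EvDiff BLe DLe StaysCardinal rn dep_rn measurable_rn measure_rn
  disjoint_rn)
open scoped ENNReal

universe u v w

section Sentences

variable {P : Type u} [Preorder P]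

/-- The functions from `K` to `M` named by `f` and `g` satisfy `f ≤* g`: for some `μ < |M|` there
is a function `S` from `μ` to `K` such that each `α` with `f α > g α` is a value of `S`. -/
def AlmLe {K M : Type v} [LT M] (f g : K → M → Set P) : Set P :=
  fex fun μ : Cardinal.{v} => fex fun _ : μ < #M => fex fun S : μ.out → K → Set P =>
    fand (IsFun S) (fall fun α : K => fall fun β : M => fall fun γ : M => fall fun _ : γ < β =>
      fimp (fand (meets (f α β)) (meets (g α γ))) (fex fun i => meets (S i α)))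

variable (P) in
/-- There is a family, indexed by `Y`, of functions from `K` to `M` such that every function from
`K` to `M` satisfies `f ≤* g` for some member `g` of the family. -/
def DomLe (K M : Type v) [LT M] (Y : Type w) : Set P :=
  fex fun D : Y → K → M → Set P => fand (fall fun y => IsFun (D y))
    (fall fun f : K → M → Set P => fimp (IsFun f) (fex fun y => AlmLe f (D y)))

variable (P) in
/-- Let `K` be the set of the ordinals smaller than `κ`. The ordinal `κ` is a cardinal, the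
continuum is at most `κ`, `𝔟(≠*)` is not smaller than `κ`, the number `𝔡(≠*_{∅})` (for functions
defined on `K`) is at most `ν`, and for each infinite `μ ≤ κ` the number `𝔡^κ_μ` is not at most
`ν`. -/
def Model (κ ν : Cardinal.{v}) : Set P :=
  fand (StaysCardinal P κ.ord.ToType)
    (fand (ContinuumLe P κ.ord.ToType)
      (fand (fall fun μ : Cardinal.{v} => fall fun _ : μ < κ => fnot (BLe P μ.out))
        (fand (DLe P κ.ord.ToType ν.out)
          (fall fun μ : Cardinal.{v} => fall fun _ : ℵ₀ ≤ μ => fall fun _ : μ ≤ κ =>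
            fnot (DomLe P κ.ord.ToType μ.ord.ToType ν.out)))))

end Sentences

/-! ### Random reals -/

section Lift

variable {H : Type} [Preorder H] {K : Type}

/-- the conditions whose second coordinate is almost included in `E` -/
def lft (H : Type) {K : Type} (E : Set (K × ℕ → Bool)) : Set (H × Random K) :=
  {p | p.2 ∈ AE (coinProduct K) E}

theorem meets_lft {E : Set (K × ℕ → Bool)} (hE : MeasurableSet E) :
    meets (lft H E) = lft H E := by
  ext p
  constructor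
  · intro h
    show p.2 ∈ AE (coinProduct K) E
    rw [mem_AE]
    by_contra hne
    have hne' : coinProduct K (p.2.1 ∩ Eᶜ) ≠ 0 := hne
    obtain ⟨r, hr, s, hs, hrs⟩ := h (p.1, restr p.2 Eᶜ hE.compl hne')
      ⟨le_rfl, restr_le p.2 Eᶜ hE.compl hne'⟩
    exact not_AE_compl (down_AE _ _ hs _ hrs.2)
      (down_AE _ _ (restr_mem p.2 Eᶜ hE.compl hne') _ hr.2)
  · intro h q hq
    exact ⟨q, le_rfl, p, h, hq⟩

/-- the name of the `i`-th random function -/
def RF (H : Type) {K : Type} (i : K) (n k : ℕ) : Set (H × Random K) := lft H (rn i n k)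

theorem isFun_RF (i : K) (p : H × Random K) : p ∈ IsFun (RF H i) := by
  refine ⟨fun n => mem_fex.2 fun q _ => ?_, fun n k k' hne q _ hq => ?_⟩
  · have h1 : q.2 ∈ AE (coinProduct K) (⋃ k, rn i n k) := by
      have : (⋃ k, rn i n k) = Set.univ := eq_univ_of_forall fun x => mem_iUnion.2 ⟨_, rfl⟩
      rw [this, mem_AE]
      simp
    obtain ⟨k, hk⟩ := exists_pos h1
    refine ⟨(q.1, restr q.2 _ (measurable_rn i n k) hk),
      ⟨le_rfl, restr_le q.2 _ (measurable_rn i n k) hk⟩, k, ?_⟩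
    show _ ∈ meets (lft H (rn i n k))
    rw [meets_lft (measurable_rn i n k)]
    exact restr_mem q.2 _ (measurable_rn i n k) hk
  · obtain ⟨h1, h2⟩ := hq
    change q ∈ meets (lft H (rn i n k)) at h1
    change q ∈ meets (lft H (rn i n k')) at h2
    rw [meets_lft (measurable_rn i n _)] at h1 h2
    have h1' : q.2 ∈ AE (coinProduct K) (rn i n k) := h1
    have h2' : q.2 ∈ AE (coinProduct K) (rn i n k') := h2
    rw [mem_AE_iff] at h1' h2'
    apply q.2.2.2
    refine measure_eq_zero_iff_ae_notMem.2 ?_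
    filter_upwards [h1', h2'] with x h3 h4 h5
    exact hne (disjoint_rn (h3 h5) (h4 h5))

end Lift

variable {I K S : Type} [LinearOrder I] {θ : I → Cardinal.{0}} {lv : K → I} {lev : S → I}
variable [Nonempty S] [Nonempty K]

/-- sequences of statements have small supports below some condition -/
theorem exists_support (h : Good θ lv) {X : Type} (l : X → I)
    (hl : ∀ i, #{x // l x ≤ i} ≤ 2 ^ θ i) {φ : X → ℕ → Set (HC θ lv lev × Random K)}
    (hφ : ∀ x n, Reg (φ x n)) (a : HC θ lv lev) :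
    ∃ a' ≤ a, ∃ A : X → Set K, (∀ x, #(A x) ≤ 2 ^ θ (l x)) ∧ ∀ x, ∀ a1 ≤ a', ∃ a2 ≤ a1,
      ∃ T : Set (K × ℕ), (∀ t ∈ T, t.1 ∈ A x) ∧
      ∃ E : ℕ → Set (K × ℕ → Bool), ∀ n, Dep T (E n) ∧
        ∀ a'' ≤ a2, ∀ b : Random K, ((a'', b) ∈ φ x n ↔ b ∈ AE (coinProduct K) (E n)) := by
  obtain ⟨a', ha', Q, hQD, hQ, hQ'⟩ := fusion h l hl
    (fun x => {a' : HC θ lv lev | ∃ E : ℕ → Set (K × ℕ → Bool), ∀ n,
      MeasurableSet (E n) ∧ ∀ a'' ≤ a', ∀ b : Random K,
        ((a'', b) ∈ φ x n ↔ b ∈ AE (coinProduct K) (E n))})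
    (fun x a => decide_seq h.inf (hφ x) a) a
  choose E hE using hQD
  choose T hT hT' using fun x q hq n => exists_countable (hE x (a := q) hq n).1
  let TT : ∀ x, Q x → Set (K × ℕ) := fun x q => ⋃ n, T x q.1 q.2 n
  have hTT : ∀ x q, (TT x q).Countable := fun x q => countable_iUnion fun n => hT x q.1 q.2 n
  refine ⟨a', ha', fun x => ⋃ q : Q x, Prod.fst '' TT x q, fun x => ?_, fun x a1 ha1 => ?_⟩
  · refine (mk_iUnion_le_sum_mk).trans ((sum_le_sum _ (fun _ => ℵ₀) fun q => ?_).trans ?_)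
    · exact ((hTT x q).image _).le_aleph0
    · rw [sum_const']
      have h1 : ℵ₀ ≤ (2 : Cardinal.{0}) ^ θ (l x) := (h.inf _).trans (cantor _).le
      exact (mul_le_mul' (hQ x) h1).trans (mul_eq_self h1).le
  · obtain ⟨q, hq, hag⟩ := hQ' x a1 ha1
    obtain ⟨a2, ha2, ha2', -⟩ := exists_glue2 h.inf hag
    refine ⟨a2, ha2, TT x ⟨q, hq⟩, fun t ht => mem_iUnion.2 ⟨⟨q, hq⟩, t, ht, rfl⟩, E x hq,
      fun n => ⟨?_, ?_⟩⟩
    · exact (hT' x q hq n).mono (subset_iUnion (T x q hq) n)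
    · exact fun a'' ha'' b => (hE x hq n).2 a'' (ha''.trans ha2') b

theorem evDiff (h : Good θ lv) {X : Type} (l : X → I)
    (hl : ∀ i, #{x // l x ≤ i} ≤ 2 ^ θ i) (N : X → ℕ → ℕ → Set (HC θ lv lev × Random K))
    (a : HC θ lv lev) :
    ∃ a' ≤ a, ∃ A : X → Set K, (∀ x, #(A x) ≤ 2 ^ θ (l x)) ∧ ∀ x γ, γ ∉ A x →
      ∀ p : HC θ lv lev × Random K, p.1 ≤ a' → p ∈ IsFun (N x) →
        p ∈ EvDiff (N x) (RF (HC θ lv lev) γ) := by
  obtain ⟨a0, ha0, A, hA, h'⟩ := exists_support h l hl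
    (φ := fun x n => meets (N x n.unpair.1 n.unpair.2)) (fun x n => reg_meets _) a
  refine ⟨a0, ha0, A, hA, fun x γ hγ p hpa hp => mem_fex.2 fun q hq => ?_⟩
  obtain ⟨a', ha', T, hT, E, hE⟩ := h' x q.1 (hq.1.trans hpa)
  let F : ℕ → ℕ → Set (K × ℕ → Bool) := fun n k => E (Nat.pair n k)
  have hFd : ∀ n k, Dep T (F n k) := fun n k => (hE _).1
  have hF : ∀ n k, ∀ a'' ≤ a', ∀ b : Random K,
      ((a'', b) ∈ meets (N x n k) ↔ b ∈ AE (coinProduct K) (F n k)) := by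
    intro n k a'' ha'' b
    have := (hE (Nat.pair n k)).2 a'' ha'' b
    simpa using this
  have hq' : (a', q.2) ≤ q := ⟨ha', le_rfl⟩
  have hfun : (a', q.2) ∈ IsFun (N x) := (reg_isFun (N x)).1 p hp _ (hq'.trans hq)
  -- the values are unique
  have huniq : ∀ n k k', k ≠ k' → ∀ᵐ z ∂(coinProduct K), z ∈ q.2.1 →
      ¬ (z ∈ F n k ∧ z ∈ F n k') := by
    intro n k k' hne
    have hm : MeasurableSet (F n k ∩ F n k') := (hFd n k).meas.inter (hFd n k').meas
    by_contra hcon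
    have hpos : coinProduct K (q.2.1 ∩ (F n k ∩ F n k')) ≠ 0 := by
      intro h0
      apply hcon
      filter_upwards [measure_eq_zero_iff_ae_notMem.1 h0] with z hz h1 h2
      exact hz ⟨h1, h2⟩
    have h2 : restr q.2 _ hm hpos ∈ AE (coinProduct K) (F n k ∩ F n k') := restr_mem _ _ _ _
    rw [← fand_AE] at h2
    exact hfun.2 n k k' hne (a', restr q.2 _ hm hpos) ⟨le_rfl, restr_le q.2 _ hm hpos⟩
      ⟨(hF n k a' le_rfl _).2 h2.1, (hF n k' a' le_rfl _).2 h2.2⟩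
  let F' : ℕ → ℕ → Set (K × ℕ → Bool) := fun n k => F n k ∩ ⋂ k' : ℕ, ⋂ _ : k' ≠ k, (F n k')ᶜ
  have hF'd : ∀ n k, Dep T (F' n k) := fun n k =>
    (hFd n k).inter (Dep.iInter fun k' => Dep.iInter fun _ => (hFd n k').compl)
  let G : ℕ → Set (K × ℕ → Bool) := fun n => ⋃ k, F' n k ∩ rn γ n k
  have hGm : ∀ n, MeasurableSet (G n) := fun n =>
    MeasurableSet.iUnion fun k => (hF'd n k).meas.inter (measurable_rn γ n k)
  have hdisjT : Disjoint T {t : K × ℕ | t.1 = γ} :=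
    Set.disjoint_left.2 fun t h1 h2 => hγ (h2 ▸ hT t h1)
  have hG : ∀ n, coinProduct K (G n) ≤ (2 : ENNReal)⁻¹ ^ n := by
    intro n
    calc coinProduct K (G n) ≤ ∑' k, coinProduct K (F' n k ∩ rn γ n k) := measure_iUnion_le _
      _ ≤ ∑' k, coinProduct K (F' n k) * (2 : ENNReal)⁻¹ ^ n := by
        refine ENNReal.tsum_le_tsum fun k => ?_
        rw [dep_indep hdisjT (hF'd n k) (dep_rn γ n k)]
        exact mul_le_mul_right (measure_rn γ n k) _
      _ = (∑' k, coinProduct K (F' n k)) * (2 : ENNReal)⁻¹ ^ n := ENNReal.tsum_mul_right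
      _ = coinProduct K (⋃ k, F' n k) * (2 : ENNReal)⁻¹ ^ n := by
        rw [measure_iUnion (fun k k' hne => ?_) fun k => (hF'd n k).meas]
        refine Set.disjoint_left.2 fun z hz hz' => ?_
        exact mem_iInter₂.1 hz.2 k' (Ne.symm hne) hz'.1
      _ ≤ 1 * (2 : ENNReal)⁻¹ ^ n := mul_le_mul' prob_le_one le_rfl
      _ = _ := one_mul _
  let G' : ℕ → Set (K × ℕ → Bool) := fun N => ⋂ n : ℕ, ⋂ _ : N ≤ n, (G n)ᶜ
  have hHm : ∀ N, MeasurableSet (G' N) := fun N =>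
    MeasurableSet.iInter fun n => MeasurableSet.iInter fun _ => (hGm n).compl
  have h3 : ∑' n, coinProduct K (G n) ≠ ⊤ :=
    ne_top_of_le_ne_top tsum_two (ENNReal.tsum_le_tsum hG)
  have h4 : q.2 ∈ AE (coinProduct K) (⋃ N, G' N) := by
    rw [mem_AE_iff]
    filter_upwards [ae_eventually_notMem h3] with z hz _
    obtain ⟨N, hN⟩ := eventually_atTop.1 hz
    exact mem_iUnion.2 ⟨N, mem_iInter₂.2 fun n hn => hN n hn⟩
  obtain ⟨N0, hN⟩ := exists_pos h4
  refine ⟨(a', restr q.2 _ (hHm N0) hN), ⟨ha', restr_le q.2 _ (hHm N0) hN⟩, N0,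
    fun n hn k s hs hsm => ?_⟩
  obtain ⟨h5, h6⟩ := hsm
  have h5' : s.2 ∈ AE (coinProduct K) (F n k) := (hF n k s.1 hs.1 s.2).1 h5
  change s ∈ meets (lft (HC θ lv lev) (rn γ n k)) at h6
  rw [meets_lft (measurable_rn γ n k)] at h6
  have h6' : s.2 ∈ AE (coinProduct K) (rn γ n k) := h6
  have h7 : s.2 ∈ AE (coinProduct K) (G' N0) :=
    down_AE _ _ (restr_mem q.2 _ (hHm N0) hN) _ hs.2
  have h8 : s.2 ∈ AE (coinProduct K) q.2.1 :=
    le_iff_AE.1 (hs.2.trans (restr_le q.2 _ (hHm N0) hN))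
  rw [mem_AE_iff] at h5' h6' h7 h8
  apply s.2.2.2
  refine measure_eq_zero_iff_ae_notMem.2 ?_
  have h9 : ∀ᵐ z ∂(coinProduct K), ∀ k', k ≠ k' → z ∈ q.2.1 → ¬ (z ∈ F n k ∧ z ∈ F n k') := by
    rw [ae_all_iff]
    intro k'
    by_cases hne : k = k'
    · exact ae_of_all _ fun z h => absurd hne h
    · filter_upwards [huniq n k k' hne] with z hz _
      exact hz
  filter_upwards [h5', h6', h7, h8, h9] with z g5 g6 g7 g8 g9 hz
  refine mem_iInter₂.1 (g7 hz) n hn (mem_iUnion.2 ⟨k, ⟨g5 hz, ?_⟩, g6 hz⟩)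
  exact mem_iInter₂.2 fun k' hk' h10 => g9 k' (Ne.symm hk') (g8 hz) ⟨g5 hz, h10⟩

theorem continuumLe (h : Good θ lv) (hK : ℵ₀ ≤ #K) (hpow : #K ^ ℵ₀ = #K) {Y : Type}
    (hY : #Y = #K) (p : HC θ lv lev × Random K) :
    p ∈ ContinuumLe (HC θ lv lev × Random K) Y := by
  classical
  have h1 : #(ℕ → {A : Set (K × ℕ → Bool) // MeasurableSet A}) ≤ #Y := by
    rw [hY, mk_arrow, lift_id, lift_id, mk_nat]
    exact (power_le_power_right (mk_measurable hK hpow)).trans hpow.le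
  obtain ⟨e⟩ := h1
  have hne : Nonempty (ℕ → {A : Set (K × ℕ → Bool) // MeasurableSet A}) :=
    ⟨fun _ => ⟨∅, MeasurableSet.empty⟩⟩
  let g : Y → ℕ → {A : Set (K × ℕ → Bool) // MeasurableSet A} := Function.invFun e
  have hg : Function.Surjective g := Function.invFun_surjective e.injective
  refine mem_fex_of (fun y n => lft (HC θ lv lev) (g y n).1) fun q _ X => mem_fex.2 fun r _ => ?_
  obtain ⟨a', ha', E, hE⟩ := decide_seq h.inf (φ := fun n => meets (X n)) (fun n => reg_meets _) r.1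
  obtain ⟨y, hy⟩ := hg fun n => ⟨E n, (hE n).1⟩
  refine ⟨(a', r.2), ⟨ha', le_rfl⟩, y, same_of fun s hs n => ?_⟩
  rw [meets_lft (g y n).2, hy]
  exact (hE n).2 s.1 hs.1 s.2

/-- the hypotheses on the size of `K` -/
structure Big (θ : I → Cardinal.{0}) (K : Type) : Prop where
  lt : ∀ i, 2 ^ θ i < #K
  cof : ∀ c < #K, ∃ i, c ≤ 2 ^ θ i
  inf : ℵ₀ ≤ #K

omit [Nonempty S] [Nonempty K] in
theorem Good.mono (h : Good θ lv) {i j : I} (hij : i ≤ j) : (2 : Cardinal.{0}) ^ θ i ≤ 2 ^ θ j := by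
  rcases hij.eq_or_lt with rfl | hlt
  · exact le_rfl
  · exact (h.pow _ _ hlt).trans (cantor _).le

omit [Nonempty S] [Nonempty K] in
theorem Good.const (h : Good θ lv) {X : Type} {i : I} (hX : #X ≤ 2 ^ θ i) (j : I) :
    #{x : X // i ≤ j} ≤ 2 ^ θ j := by
  by_cases hij : i ≤ j
  · exact (mk_subtype_le _).trans (hX.trans (h.mono hij))
  · have : IsEmpty {x : X // i ≤ j} := ⟨fun x => hij x.2⟩
    rw [mk_eq_zero]
    exact zero_le

theorem not_bLe (h : Good θ lv) (hB : Big θ K) {M : Type} (hM : #M < #K)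
    (p : HC θ lv lev × Random K) : p ∈ fnot (BLe (HC θ lv lev × Random K) M) := by
  intro q _ hq
  obtain ⟨r, _, D, hD1, hD2⟩ := mem_fex.1 hq q le_rfl
  obtain ⟨i, hi⟩ := hB.cof _ hM
  obtain ⟨a', ha', A, hA, hA'⟩ := evDiff h (fun _ : M => i) (h.const hi) D r.1
  obtain ⟨γ, hγ⟩ : ∃ γ, γ ∉ ⋃ m, A m := by
    by_contra hcon
    push Not at hcon
    have h1 : #K ≤ #(⋃ m, A m) := by
      rw [eq_univ_of_forall hcon, mk_univ]
    have h2 : #(⋃ m, A m) ≤ #M * 2 ^ θ i := by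
      refine (mk_iUnion_le_sum_mk).trans ((sum_le_sum _ (fun _ => 2 ^ θ i) fun m => hA m).trans ?_)
      rw [sum_const']
    exact absurd (h1.trans h2) (not_le.2 (mul_lt_of_lt hB.inf hM (hB.lt i)))
  have hr' : (a', r.2) ≤ r := ⟨ha', le_rfl⟩
  refine hD2 (a', r.2) hr' (mem_fex_of (RF (HC θ lv lev) γ) fun s hs =>
    ⟨isFun_RF γ s, fun m => ?_⟩)
  exact hA' m γ (fun h => hγ (mem_iUnion.2 ⟨m, h⟩)) s hs.1
    ((reg_isFun _).1 r (hD1 m) s (hs.trans hr'))

theorem dLe (h : Good θ lv) (hB : Big θ K) {Y : Type} (hY : #Y = #(K → K))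
    (p : HC θ lv lev × Random K) : p ∈ DLe (HC θ lv lev × Random K) K Y := by
  obtain ⟨e⟩ := Cardinal.eq.1 hY
  refine mem_fex_of (fun y x => RF (HC θ lv lev) (e y x)) fun q _ =>
    ⟨fun y x => isFun_RF _ q, fun f => mem_fimp.2 fun r _ hr => ?_⟩
  obtain ⟨a', ha', A, hA, hA'⟩ := evDiff h lv h.lvl f r.1
  have h1 : ∀ x, ∃ γ, γ ∉ A x := by
    intro x
    by_contra hcon
    push Not at hcon
    have h1 : #K ≤ #(A x) := by
      rw [eq_univ_of_forall hcon, mk_univ]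
    exact absurd (h1.trans (hA x)) (not_le.2 (hB.lt _))
  choose γ hγ using h1
  have hr' : (a', r.2) ≤ r := ⟨ha', le_rfl⟩
  refine ⟨(a', r.2), hr', mem_fex_of (e.symm γ) fun s hs x => ?_⟩
  show s ∈ EvDiff (f x) (RF (HC θ lv lev) (e (e.symm γ) x))
  rw [Equiv.apply_symm_apply]
  exact hA' x (γ x) (hγ x) s hs.1 ((reg_isFun _).1 r (hr x) s (hs.trans hr'))

/-! ### Functions defined on a small set -/

theorem values (h : Good θ lv) {X K' : Type} (l : X → I)
    (hl : ∀ i, #{x // l x ≤ i} ≤ 2 ^ θ i) {R : X → K' → Set (HC θ lv lev × Random K)}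
    {r : HC θ lv lev × Random K} (hr : r ∈ IsFun R) :
    ∃ r' ≤ r, ∃ C : X → Set K', (∀ x, #(C x) ≤ 2 ^ θ (l x)) ∧
      ∀ x β, ∀ q ≤ r', q ∈ meets (R x β) → β ∈ C x := by
  obtain ⟨a', ha', Q, hQD, hQ, hQ'⟩ := fusion h l hl
    (fun x => {a' : HC θ lv lev | ∀ b : Random K, ∃ b' ≤ b,
      (a', b') ∈ {p : HC θ lv lev × Random K | (∃ β, p ∈ meets (R x β)) ∨ ∀ s, s ≤ p → ¬ s ≤ r}})
    (fun x a => by
      refine core h.inf ?_ ?_ a
      · rintro p (⟨β, hβ⟩ | hp) q hq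
        · exact Or.inl ⟨β, (reg_meets _).1 _ hβ _ hq⟩
        · exact Or.inr fun s hs => hp s (hs.trans hq)
      · intro p
        by_cases hp : ∃ s, s ≤ p ∧ s ≤ r
        · obtain ⟨s, hs, hs'⟩ := hp
          obtain ⟨t, ht, β, hβ⟩ := isFun_total ((reg_isFun _).1 r hr s hs') x
          exact ⟨t, ht.trans hs, Or.inl ⟨β, hβ⟩⟩
        · push Not at hp
          exact ⟨p, le_rfl, Or.inr hp⟩) r.1
  have hr' : (a', r.2) ≤ r := ⟨ha', le_rfl⟩
  refine ⟨(a', r.2), hr', fun x => {β | ∃ q ≤ (a', r.2), q ∈ meets (R x β)}, fun x => ?_,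
    fun _ _ q hq h => ⟨q, hq, h⟩⟩
  have h0 : ℵ₀ ≤ (2 : Cardinal.{0}) ^ θ (l x) := (h.inf _).trans (cantor _).le
  by_contra hlt
  rw [not_le] at hlt
  choose f hf hf' using fun β : {β | ∃ q ≤ (a', r.2), q ∈ meets (R x β)} => β.2
  choose q hq hag using fun β => hQ' x (f β).1 (hf β).1
  have h1 : ∀ β : {β | ∃ q ≤ (a', r.2), q ∈ meets (R x β)}, ∃ b' ≤ (f β).2,
      (q β, b') ∈ meets (R x β.1) := by
    intro β
    obtain ⟨c, hc, hc', -⟩ := exists_glue2 h.inf (hag β)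
    obtain ⟨b', hb', hdec⟩ := hQD x (hq β) (f β).2
    have hcf : (c, b') ≤ f β := ⟨hc, hb'⟩
    have hcq : (c, b') ≤ (q β, b') := ⟨hc', le_rfl⟩
    have hcr : (c, b') ≤ r := hcf.trans ((hf β).trans hr')
    rcases hdec with ⟨β', hβ'⟩ | hdec
    · have h2 : β.1 = β' := isFun_unique ((reg_isFun R).1 r hr _ hcr)
        ((reg_meets _).1 _ (hf' β) _ hcf) ((reg_meets _).1 _ hβ' _ hcq)
      rw [h2]
      exact ⟨b', hb', hβ'⟩
    · exact absurd hcr (hdec _ hcq)
  choose b hb hb' using h1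
  obtain ⟨β, β', hne, hz, s, hs, hs'⟩ := ccc_same (Z := Q x) (by
    refine lt_of_le_of_lt ((mul_le_mul' (hQ x) h0).trans (mul_eq_self h0).le) hlt) b
    (fun β => ⟨q β, hq β⟩)
  have hz' : q β = q β' := congrArg Subtype.val hz
  obtain ⟨c, hc, hc', -⟩ := exists_glue2 h.inf (hag β)
  have h2 : (c, s) ≤ (q β, b β) := ⟨hc', hs⟩
  have h3 : (c, s) ≤ (q β', b β') := ⟨by rw [← hz']; exact hc', hs'⟩
  have h4 : (c, s) ≤ f β := ⟨hc, hs.trans (hb β)⟩
  have hcr : (c, s) ≤ r := h4.trans ((hf β).trans hr')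
  apply hne
  apply Subtype.ext
  exact isFun_unique ((reg_isFun R).1 r hr _ hcr) ((reg_meets _).1 _ (hb' β) _ h2)
    ((reg_meets _).1 _ (hb' β') _ h3)

/-- the values of a function which is defined on a small set -/
theorem small_range (h : Good θ lv) (hB : Big θ K) {M K' : Type} (hM : #M < #K)
    {R : M → K' → Set (HC θ lv lev × Random K)} {r : HC θ lv lev × Random K} (hr : r ∈ IsFun R) :
    ∃ r' ≤ r, ∃ C : Set K', #C < #K ∧ ∀ x β, ∀ q ≤ r', q ∈ meets (R x β) → β ∈ C := by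
  obtain ⟨i, hi⟩ := hB.cof _ hM
  obtain ⟨r', hr', C, hC, hC'⟩ := values h (fun _ : M => i) (h.const hi) hr
  refine ⟨r', hr', ⋃ x, C x, ?_, fun x β q hq h => mem_iUnion.2 ⟨x, hC' x β q hq h⟩⟩
  have h2 : #(⋃ m, C m) ≤ #M * 2 ^ θ i := by
    refine (mk_iUnion_le_sum_mk).trans ((sum_le_sum _ (fun _ => 2 ^ θ i) fun m => hC m).trans ?_)
    rw [sum_const']
  exact h2.trans_lt (mul_lt_of_lt hB.inf hM (hB.lt i))

theorem staysCardinal (h : Good θ lv) (hB : Big θ K) (p : HC θ lv lev × Random K) :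
    p ∈ StaysCardinal (HC θ lv lev × Random K) K := by
  intro μ hμ q _ hq
  obtain ⟨r, _, R, hR1, hR2⟩ := mem_fex.1 hq q le_rfl
  obtain ⟨r', hr', C, hC, hC'⟩ := small_range h hB (by rwa [mk_out]) hR1
  have h1 : ∀ β, β ∈ C := by
    intro β
    obtain ⟨s, hs, i, hi⟩ := mem_fex.1 (hR2 β) r' hr'
    exact hC' i β s hs hi
  have h2 : #K ≤ #C := by
    rw [eq_univ_of_forall h1, mk_univ]
  exact absurd hC (not_lt.2 h2)

end Pool.Agent.H630.MB
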