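import Pool.Agent.H630.MB.Small

/-!
# The fusion lemma
-/

set_option autoImplicit false
set_option linter.unusedSectionVars false

namespace Pool.Agent.H630.MB

open Cardinal MeasureTheory Set Filter Topology
open Pool.Agent.TH773.PSet Pool.Agent.R593.Rnd Pool.Agent.R592.Ent
open scoped ENNReal

variable {I K S : Type} [LinearOrder I] {θ : I → Cardinal.{0}} {lv : K → I} {lev : S → I}

/-- The hypotheses on the parameters. -/
structure Good (θ : I → Cardinal.{0}) (lv : K → I) : Prop where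
  inf : ∀ i, ℵ₀ ≤ θ i
  pow : ∀ i j : I, i < j → 2 ^ θ i ≤ θ j
  ctb : ∀ i : I, (Set.Iic i).Countable
  lvl : ∀ i, #{v // lv v ≤ i} ≤ 2 ^ θ i

theorem Good.mk_lt (h : Good θ lv) {X : Type} {l : X → I}
    (hl : ∀ i, #{x // l x ≤ i} ≤ 2 ^ θ i) (i : I) : #{x // l x < i} ≤ θ i := by
  have h1 : {x | l x < i} = ⋃ j : {j // j < i}, {x | l x ≤ j.1} := by
    ext x
    simp only [mem_ofPred_eq, mem_iUnion]
    constructor
    · intro hx
      exact ⟨⟨l x, hx⟩, le_rfl⟩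
    · rintro ⟨j, hj⟩
      exact hj.trans_lt j.2
  show #({x | l x < i} : Set X) ≤ θ i
  rw [h1]
  refine mk_iUnion_le_sum_mk.trans ((sum_le_sum _ (fun _ => θ i) fun j : {j // j < i} =>
    (hl j.1).trans (h.pow _ _ j.2)).trans ?_)
  rw [sum_const']
  have h2 : #{j // j < i} ≤ ℵ₀ := by
    have h3 : ({j | j < i} : Set I).Countable := (h.ctb i).mono fun j hj => le_of_lt hj
    exact h3.le_aleph0
  exact (mul_le_mul' h2 le_rfl).trans (aleph0_mul_eq (h.inf i)).le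

/-- **The fusion lemma.** For each `x` let `D x` be a dense set of conditions. Then every
condition has an extension below which each `D x` has a predense subset of size at most
`2 ^ θ (l x)`. -/
theorem fusion [Nonempty S] [Nonempty K] (h : Good θ lv) {X : Type} (l : X → I)
    (hl : ∀ i, #{x // l x ≤ i} ≤ 2 ^ θ i) (D : X → Set (HC θ lv lev))
    (hD : ∀ x a, ∃ a' ≤ a, a' ∈ D x) (a : HC θ lv lev) :
    ∃ a' ≤ a, ∃ Q : X → Set (HC θ lv lev), (∀ x, Q x ⊆ D x) ∧ (∀ x, #(Q x) ≤ 2 ^ θ (l x)) ∧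
      ∀ x, ∀ a'' ≤ a', ∃ q ∈ Q x, Agree a'' q := by
  classical
  let 𝒮 : Set (Set (X × HC θ lv lev)) := {T |
    (∀ t ∈ T, t.2 ∈ D t.1 ∧ AgreeOn {s | l t.1 < lev s} t.2 a) ∧
    (∀ t ∈ T, ∀ t' ∈ T, AgreeOn {s | l t.1 < lev s ∧ l t'.1 < lev s} t.2 t'.2) ∧
    (∀ t ∈ T, ∀ t' ∈ T, t.1 = t'.1 → AgreeOn {s | lev s ≤ l t.1} t.2 t'.2 → t = t')}
  obtain ⟨T, hT⟩ : ∃ T, Maximal (fun T => T ∈ 𝒮) T := by
    refine zorn_subset 𝒮 fun c hc hchain => ⟨⋃₀ c, ⟨?_, ?_, ?_⟩,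
      fun s hs => subset_sUnion_of_mem hs⟩
    · rintro t ⟨s, hs, hts⟩
      exact (hc hs).1 t hts
    · rintro t ⟨s, hs, hts⟩ t' ⟨s', hs', hts'⟩
      rcases hchain.total hs hs' with h | h
      · exact (hc hs').2.1 t (h hts) t' hts'
      · exact (hc hs).2.1 t hts t' (h hts')
    · rintro t ⟨s, hs, hts⟩ t' ⟨s', hs', hts'⟩
      rcases hchain.total hs hs' with h | h
      · exact (hc hs').2.2 t (h hts) t' hts'
      · exact (hc hs).2.2 t hts t' (h hts')
  obtain ⟨hT1, hT2, hT3⟩ := hT.prop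
  let Q : X → Set (HC θ lv lev) := fun x => {p | (x, p) ∈ T}
  -- the size of `Q x`
  have hQ : ∀ x, #(Q x) ≤ 2 ^ θ (l x) := by
    intro x
    let Θ : Type := (θ (l x)).out
    have hΘ : #Θ = θ (l x) := mk_out _
    obtain ⟨F0, hF0, hF0c, -, hF0'⟩ := exists_small (θ := θ) (lv := lv) (lev := lev) (Θ := Θ)
      (by rw [hΘ]; exact h.inf _) {s | lev s ≤ l x} {v | lv v ≤ l x}
      (by rw [hΘ]; exact h.lvl _) (Q x)
      (fun p _ => by rw [hΘ]; exact p.small (l x))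
      (fun p _ t ht htL => (p.lvl t ht).trans htL)
    have h1 : Q x ⊆ F0 := by
      intro p hp
      obtain ⟨q, hq, hpq⟩ := hF0' p hp
      have h2 : (x, p) = (x, q) := hT3 (x, p) hp (x, q) (hF0 hq) rfl hpq
      have h3 : p = q := congrArg Prod.snd h2
      rw [h3]
      exact hq
    rw [hΘ] at hF0c
    exact (mk_le_mk_of_subset h1).trans hF0c
  -- the new condition
  let Dm : Option T → Set S := fun o => o.elim a.dom fun t => {s | s ∈ t.1.2.dom ∧ l t.1.1 < lev s}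
  let Fn : Option T → S → K := fun o => o.elim a.val fun t => t.1.2.val
  obtain ⟨v, hv⟩ := glue_fun Dm Fn (by
    rintro (_ | t) (_ | t') s hs hs'
    · rfl
    · exact ((hT1 t'.1 t'.2).2 s hs'.1 hs hs'.2).symm
    · exact (hT1 t.1 t.2).2 s hs.1 hs' hs.2
    · exact hT2 t.1 t.2 t'.1 t'.2 s hs.1 hs'.1 ⟨hs.2, hs'.2⟩)
  have hsize : ∀ i, #{t // t ∈ (⋃ o, Dm o) ∧ lev t ≤ i} ≤ θ i := by
    intro i
    let T' : Set (X × HC θ lv lev) := {t | t ∈ T ∧ l t.1 < i}
    have hT' : #T' ≤ θ i := by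
      let X' : Type := {x // l x < i}
      have h1 : T' ⊆ ⋃ x : X', (fun p => (x.1, p)) '' Q x.1 := by
        rintro ⟨x, p⟩ ⟨h1, h2⟩
        exact mem_iUnion.2 ⟨⟨x, h2⟩, p, h1, rfl⟩
      refine (mk_le_mk_of_subset h1).trans (mk_iUnion_le_sum_mk.trans
        ((sum_le_sum _ (fun _ => θ i) fun x : X' => ?_).trans ?_))
      · exact mk_image_le.trans ((hQ x.1).trans (h.pow _ _ x.2))
      · rw [sum_const']
        exact (mul_le_mul' (h.mk_lt hl i) le_rfl).trans (mul_eq_self (h.inf i)).le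
    have h1 : {t | t ∈ (⋃ o, Dm o) ∧ lev t ≤ i} ⊆ {t | t ∈ a.dom ∧ lev t ≤ i} ∪
        ⋃ p : T', {t | t ∈ p.1.2.dom ∧ lev t ≤ i} := by
      rintro s ⟨hs, hsi⟩
      obtain ⟨o, ho⟩ := mem_iUnion.1 hs
      rcases o with _ | t
      · exact Or.inl ⟨ho, hsi⟩
      · exact Or.inr (mem_iUnion.2 ⟨⟨t.1, t.2, ho.2.trans_le hsi⟩, ho.1, hsi⟩)
    refine (mk_le_mk_of_subset h1).trans ((mk_union_le _ _).trans ?_)
    have h2 : #(⋃ p : T', {t | t ∈ p.1.2.dom ∧ lev t ≤ i} : Set S) ≤ θ i := by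
      refine mk_iUnion_le_sum_mk.trans ((sum_le_sum _ (fun _ => θ i) fun p : T' =>
        p.1.2.small i).trans ?_)
      rw [sum_const']
      exact (mul_le_mul' hT' le_rfl).trans (mul_eq_self (h.inf i)).le
    exact (add_le_add (a.small i) h2).trans (add_eq_self (h.inf i)).le
  let a' : HC θ lv lev := ⟨⋃ o, Dm o, v, hsize, by
    intro s hs
    obtain ⟨o, ho⟩ := mem_iUnion.1 hs
    rw [hv o s ho]
    rcases o with _ | t
    · exact a.lvl s ho
    · exact t.1.2.lvl s ho.1⟩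
  have haa : a' ≤ a := ⟨fun s hs => mem_iUnion.2 ⟨none, hs⟩, fun s hs => hv none s hs⟩
  have hat : ∀ t ∈ T, ∀ c ≤ a', AgreeOn {s | l t.1 < lev s} c t.2 := by
    intro t ht c hc s h1 h2 h3
    have h4 : s ∈ Dm (some ⟨t, ht⟩) := ⟨h2, h3⟩
    have h5 : s ∈ a'.dom := mem_iUnion.2 ⟨_, h4⟩
    rw [hc.2 s h5]
    exact hv _ s h4
  refine ⟨a', haa, Q, fun x p hp => (hT1 _ hp).1, hQ, fun x a'' ha'' => ?_⟩
  obtain ⟨p, hp, hpD⟩ := hD x a''
  by_contra hcon
  push Not at hcon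
  have hpa' : p ≤ a' := hp.trans ha''
  -- members of `Q x` do not agree with `p`
  have hno : ∀ q ∈ Q x, ¬ AgreeOn {s | lev s ≤ l x} p q := by
    intro q hq hag
    refine hcon q hq ?_
    have h1 : Agree p q := by
      intro s h1 h2
      rcases le_or_gt (lev s) (l x) with h3 | h3
      · exact hag s h1 h2 h3
      · exact hat _ hq p hpa' s h1 h2 h3
    exact h1.of_le_left hp
  have hin : insert (x, p) T ∈ 𝒮 := by
    refine ⟨?_, ?_, ?_⟩
    · rintro t (rfl | ht)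
      · exact ⟨hpD, (agree_of_le le_rfl (hpa'.trans haa)).on _⟩
      · exact hT1 t ht
    · rintro t (rfl | ht) t' (rfl | ht')
      · exact fun _ _ _ _ => rfl
      · exact fun s h1 h2 h3 => hat t' ht' p hpa' s h1 h2 h3.2
      · exact fun s h1 h2 h3 => (hat t ht p hpa' s h2 h1 h3.1).symm
      · exact hT2 t ht t' ht'
    · rintro t (rfl | ht) t' (rfl | ht') h1 h2
      · rfl
      · obtain ⟨x', q⟩ := t'
        obtain rfl : x = x' := h1
        exact absurd h2 (hno q ht')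
      · obtain ⟨x', q⟩ := t
        obtain rfl : x' = x := h1
        exact absurd h2.symm (hno q ht)
      · exact hT3 t ht t' ht' h1 h2
  have h1 : (x, p) ∈ T := hT.le_of_ge hin (subset_insert _ _) (mem_insert _ _)
  exact hcon p h1 (agree_of_le hp le_rfl)

end Pool.Agent.H630.MB
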