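import Pool.Agent.H630.MB.NotDom
import Pool.Graph.R_seed8.R592.Hd.Ground

/-!
# The meaning of the sentences over the trivial forcing, and the choice of the parameters
-/

set_option autoImplicit false
set_option linter.unusedSectionVars false

namespace Pool.Agent.H630.MB

open Cardinal MeasureTheory Set Filter Topology
open Pool.Agent.TH773.PSet Pool.Agent.R593.Rnd Pool.Agent.R592.Ent
open Pool.Agent.R592.Hd (EvDiff BLe DLe StaysCardinal Ne' bNe dEmpty dHigh fam dEmpty_iff bNe_le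
  unit_bLe unit_dLe unit_staysCardinal)
open scoped ENNReal

/-! ### The meaning of the sentences -/

lemma dHigh_iff {lam κ : Cardinal.{0}} (hκ : κ ≠ 0) (Y : Type) :
    (∃ D : Y → lam.ord.ToType → κ.ord.ToType, ∀ f : lam.ord.ToType → κ.ord.ToType, ∃ y,
      #{α // D y α < f α} < κ) ↔ dHigh lam κ ≤ #Y := by
  have hne : Nonempty κ.ord.ToType := by
    rw [← mk_ne_zero_iff, mk_ord_toType]
    exact hκ
  have h := fam (T := lam.ord.ToType → κ.ord.ToType)
    (fun D => ∀ f : lam.ord.ToType → κ.ord.ToType, ∃ g ∈ D, #{α // g α < f α} < κ)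
    (fun s t hst hs f => by
      obtain ⟨g, hg, h⟩ := hs f
      exact ⟨g, hst hg, h⟩)
    (fun h => by
      obtain ⟨g, hg, -⟩ := h fun _ => Classical.arbitrary _
      exact hg.elim)
    (fun f => ⟨f, trivial, by
      have : IsEmpty {α // f α < f α} := ⟨fun α => lt_irrefl _ α.2⟩
      rw [mk_eq_zero]
      exact pos_iff_ne_zero.2 hκ⟩) Y
  rw [dHigh, ← h]
  refine exists_congr fun D => forall_congr' fun f => ?_
  exact (exists_range_iff (f := D) (p := fun g => #{α // g α < f α} < κ)).symm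

theorem unit_almLe {K M : Type} [LT M] {f g : K → M → Set Unit} {f' g' : K → M} {p : Unit}
    (hf : ∀ n a, () ∈ f n a ↔ f' n = a) (hg : ∀ n a, () ∈ g n a ↔ g' n = a) :
    p ∈ AlmLe f g ↔ #{α // g' α < f' α} < #M := by
  simp only [AlmLe, mem_fall, unit_fex, mem_fand, unit_fimp, unit_meets, unit_isFun, hf, hg]
  constructor
  · rintro ⟨μ, hμ, S, ⟨s, hs⟩, h⟩
    refine lt_of_le_of_lt ?_ hμ
    have h1 : ∀ α : {α // g' α < f' α}, ∃ i : μ.out, s i = α.1 := by
      intro α
      obtain ⟨i, hi⟩ := h α.1 _ _ α.2 ⟨rfl, rfl⟩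
      exact ⟨i, (hs i _).1 hi⟩
    choose i hi using h1
    calc _ ≤ #μ.out := mk_le_of_injective (f := i) fun α β h => by
          apply Subtype.ext
          rw [← hi α, ← hi β, h]
      _ = μ := mk_out μ
  · intro h
    obtain ⟨e⟩ : Nonempty ((#{α // g' α < f' α}).out ≃ {α // g' α < f' α}) := by
      rw [← Cardinal.eq, mk_out]
    refine ⟨_, h, fun i α => {_p | (e i).1 = α}, ⟨fun i => (e i).1, fun _ _ => Iff.rfl⟩, ?_⟩
    rintro α _ _ hlt ⟨rfl, rfl⟩
    refine ⟨e.symm ⟨α, hlt⟩, ?_⟩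
    show (e (e.symm ⟨α, hlt⟩)).1 = α
    rw [Equiv.apply_symm_apply]

theorem unit_domLe {K M Y : Type} [LT M] {p : Unit} : p ∈ DomLe Unit K M Y ↔
    ∃ D : Y → K → M, ∀ f : K → M, ∃ y, #{α // D y α < f α} < #M := by
  simp only [DomLe, unit_fex, mem_fand, mem_fall, unit_isFun, unit_fimp]
  constructor
  · rintro ⟨D, hD, h⟩
    choose D' hD' using hD
    refine ⟨D', fun f => ?_⟩
    obtain ⟨y, hy⟩ := h (fun n k => {_p | f n = k}) ⟨f, fun _ _ => Iff.rfl⟩
    exact ⟨y, (unit_almLe (f' := f) (g' := D' y) (fun _ _ => Iff.rfl) (hD' y)).1 hy⟩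
  · rintro ⟨D, h⟩
    refine ⟨fun y n k => {_p | D y n = k}, fun y => ⟨D y, fun _ _ => Iff.rfl⟩, ?_⟩
    rintro f ⟨f', hf'⟩
    obtain ⟨y, hy⟩ := h f'
    exact ⟨y, (unit_almLe hf' fun _ _ => Iff.rfl).2 hy⟩

/-- **The meaning of the sentence `Model`.** -/
theorem unit_model {κ ν : Cardinal.{0}} {p : Unit} :
    p ∈ Model Unit κ ν ↔ (κ = 𝔠 ∧ bNe = 𝔠 ∧ dEmpty ≤ ν ∧
      ∀ μ, ℵ₀ ≤ μ → μ ≤ 𝔠 → ν < dHigh 𝔠 μ) := by
  have h1 : (∀ μ : Cardinal.{0}, μ < κ → ¬ bNe ≤ μ) ↔ κ ≤ bNe := by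
    constructor
    · intro h
      by_contra hlt
      exact h bNe (not_le.1 hlt) le_rfl
    · intro h μ hμ h'
      exact absurd (h.trans h') (not_le.2 hμ)
  have h0 : ∀ μ : Cardinal.{0}, ℵ₀ ≤ μ → ((∃ D : ν.out → κ.ord.ToType → μ.ord.ToType,
      ∀ f : κ.ord.ToType → μ.ord.ToType, ∃ y, #{α // D y α < f α} < μ) ↔
      dHigh κ μ ≤ ν) := by
    intro μ hμ
    rw [dHigh_iff (aleph0_pos.trans_le hμ).ne', mk_out]
  simp only [Model, mem_fand, unit_staysCardinal, true_and, unit_continuumLe, mem_fall,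
    unit_fnot, unit_bLe, unit_dLe, unit_domLe, mk_out, h1, mk_ord_toType]
  constructor
  · rintro ⟨h2, h3, h4, h5⟩
    have h6 : κ = 𝔠 := le_antisymm (h3.trans bNe_le) h2
    have h7 : bNe = 𝔠 := le_antisymm bNe_le (h2.trans h3)
    refine ⟨h6, h7, ?_, fun μ hμ hμ' => ?_⟩
    · obtain ⟨e⟩ : Nonempty (κ.ord.ToType ≃ (ℕ → ℕ)) := by
        rw [← Cardinal.eq, mk_ord_toType, h6]
        simp
      have := (dEmpty_iff _ ν.out e).1 h4
      rwa [mk_out] at this
    · rw [← h6]
      by_contra hle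
      rw [not_lt] at hle
      exact h5 μ hμ (by rwa [h6]) ((h0 μ hμ).2 hle)
  · rintro ⟨h2, h3, h4, h5⟩
    refine ⟨h2.ge, (h2.trans h3.symm).le, ?_, ?_⟩
    · obtain ⟨e⟩ : Nonempty (κ.ord.ToType ≃ (ℕ → ℕ)) := by
        rw [← Cardinal.eq, mk_ord_toType, h2]
        simp
      refine (dEmpty_iff _ ν.out e).2 ?_
      rwa [mk_out]
    · intro μ hμ hμ' h6
      have h7 := (h0 μ hμ).1 h6
      rw [h2] at h7 hμ'
      exact absurd h7 (not_le.2 (h5 μ hμ hμ'))

theorem one_lt_dEmpty : 1 < dEmpty := by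
  by_contra h
  rw [not_lt] at h
  have h1 : dEmpty ≤ #Unit := by simpa using h
  obtain ⟨D, hD⟩ := (dEmpty_iff (ℕ → ℕ) Unit (Equiv.refl _)).2 h1
  obtain ⟨y, hy⟩ := hD (D ())
  obtain ⟨n, hn⟩ := (hy 0).exists
  exact hn rfl

theorem dHigh_le_one {κ : Cardinal.{0}} (hκ : κ < ℵ₀) : dHigh 𝔠 κ ≤ 1 := by
  by_cases h0 : κ = 0
  · subst h0
    have hne : Nonempty (𝔠 : Cardinal.{0}).ord.ToType := by
      rw [← mk_ne_zero_iff, mk_ord_toType]
      exact continuum_ne_zero
    have hem : IsEmpty (0 : Cardinal.{0}).ord.ToType := by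
      rw [← mk_eq_zero_iff, mk_ord_toType]
    have h1 : (0 : Cardinal.{0}) ∈ {c : Cardinal.{0} | ∃ D : Set ((𝔠 : Cardinal.{0}).ord.ToType →
        (0 : Cardinal.{0}).ord.ToType), (∀ f : (𝔠 : Cardinal.{0}).ord.ToType →
        (0 : Cardinal.{0}).ord.ToType, ∃ g ∈ D, #{α // g α < f α} < 0) ∧ #D = c} :=
      ⟨∅, fun f => (hem.false (f hne.some)).elim, by simp⟩
    exact (csInf_le' h1).trans zero_le_one
  · have h1 : dHigh 𝔠 κ ≤ #Unit := by
      have hne : Nonempty κ.ord.ToType := by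
        rw [← mk_ne_zero_iff, mk_ord_toType]
        exact h0
      have hfin : Finite κ.ord.ToType := by
        rw [← Cardinal.lt_aleph0_iff_finite, mk_ord_toType]
        exact hκ
      obtain ⟨m, hm⟩ := Finite.exists_max (id : κ.ord.ToType → κ.ord.ToType)
      refine (dHigh_iff h0 Unit).1 ⟨fun _ _ => m, fun f => ⟨(), ?_⟩⟩
      have : IsEmpty {α // m < f α} := ⟨fun α => absurd α.2 (not_lt.2 (hm (f α.1)))⟩
      rw [mk_eq_zero]
      exact pos_iff_ne_zero.2 h0
    simpa using h1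

/-! ### The choice of the parameters -/

section Parameters

open Ordinal

/-- the index set of the levels -/
abbrev II : Type := (ℵ_ 1 : Cardinal.{0}).ord.ToType

/-- the ordinal of an index -/
noncomputable def od (i : II) : Ordinal.{0} := (ToType.mk.symm i : Ordinal.{0})

theorem od_lt (i : II) : od i < (ℵ_ 1 : Cardinal.{0}).ord := (ToType.mk.symm i).2

theorem od_lt_od {i j : II} (h : i < j) : od i < od j := by
  have h1 := (ToType.mk (o := (ℵ_ 1 : Cardinal.{0}).ord)).symm.strictMono h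
  exact h1

theorem exists_od {o : Ordinal.{0}} (h : o < (ℵ_ 1 : Cardinal.{0}).ord) : ∃ i : II, od i = o := by
  refine ⟨ToType.mk ⟨o, h⟩, ?_⟩
  show ((ToType.mk.symm (ToType.mk ⟨o, h⟩) : Iio _) : Ordinal.{0}) = o
  rw [OrderIso.symm_apply_apply]

/-- the sizes of the parts of the conditions -/
noncomputable def th (i : II) : Cardinal.{0} := ℶ_ (od i)

theorem two_pow_th (i : II) : 2 ^ th i = ℶ_ (Order.succ (od i)) := (beth_succ _).symm

theorem ctb_Iic (i : II) : (Set.Iic i).Countable := by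
  have h1 : #(Iio i) < ℵ_ 1 := mk_Iio_toType_ord_lt i
  have h2 : (Iio i).Countable := by
    rw [← le_aleph0_iff_set_countable]
    exact Order.lt_succ_iff.1 (h1.trans_eq succ_aleph0.symm)
  have h3 : Iic i ⊆ insert i (Iio i) := by
    intro j hj
    rcases (mem_Iic.1 hj).eq_or_lt with h | h
    · exact Or.inl h
    · exact Or.inr h
  exact (h2.insert i).mono h3

theorem pow_th {i j : II} (h : i < j) : 2 ^ th i ≤ th j := by
  rw [two_pow_th, th, beth_le_beth]
  exact Order.succ_le_of_lt (od_lt_od h)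

/-- the size of the continuum of the extension -/
noncomputable def kap : Cardinal.{0} := ℶ_ (ℵ_ 1 : Cardinal.{0}).ord

theorem succLimit : Order.IsSuccLimit (ℵ_ 1 : Cardinal.{0}).ord :=
  isSuccLimit_ord (aleph0_le_aleph 1)

theorem two_pow_lt (i : II) : 2 ^ th i < kap := by
  rw [two_pow_th, kap, beth_lt_beth]
  exact succLimit.succ_lt (od_lt i)

theorem exists_lt_th {c : Cardinal.{0}} (hc : c < kap) : ∃ i : II, c < th i := by
  have h2 : kap = ⨆ a : Iio ((ℵ_ 1 : Cardinal.{0}).ord), ℶ_ a := beth_limit succLimit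
  rw [h2] at hc
  obtain ⟨⟨a, ha⟩, h3⟩ := exists_lt_of_lt_ciSup' hc
  obtain ⟨i, hi⟩ := exists_od ha
  refine ⟨i, ?_⟩
  rw [th, hi]
  exact h3

theorem aleph_one_le_kap : ℵ_ 1 ≤ kap := by
  refine (aleph_one_le_continuum).trans ?_
  rw [← beth_one, kap, beth_le_beth]
  refine le_trans ?_ (omega0_le_of_isSuccLimit succLimit)
  exact one_lt_omega0.le

theorem aleph0_le_kap : ℵ₀ ≤ kap := aleph0_le_beth _

theorem sum_th : Cardinal.sum (fun i : II => 2 ^ th i) = kap := by
  apply le_antisymm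
  · refine (sum_le_sum _ (fun _ => kap) fun i => (two_pow_lt i).le).trans ?_
    rw [sum_const', mk_ord_toType]
    exact (mul_le_mul' aleph_one_le_kap le_rfl).trans (mul_eq_self aleph0_le_kap).le
  · by_contra hlt
    rw [not_le] at hlt
    obtain ⟨i, hi⟩ := exists_lt_th hlt
    exact absurd ((cantor _).le.trans (le_sum (fun i : II => 2 ^ th i) i)) (not_le.2 hi)

abbrev KK : Type := kap.ord.ToType

theorem mk_KK : #KK = kap := mk_ord_toType _

theorem exists_equiv : Nonempty (KK ≃ Σ i : II, (2 ^ th i : Cardinal.{0}).out) := by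
  rw [← Cardinal.eq, mk_sigma, mk_KK]
  simp only [mk_out]
  exact sum_th.symm

/-- the decomposition of `κ` into the levels -/
noncomputable def ee : KK ≃ Σ i : II, (2 ^ th i : Cardinal.{0}).out := exists_equiv.some

/-- the level of an element of `κ` -/
noncomputable def lvK (v : KK) : II := (ee v).1

theorem good : Good th lvK where
  inf i := aleph0_le_beth _
  pow i j h := pow_th h
  ctb i := ctb_Iic i
  lvl i := by
    have h1 : {v : KK | lvK v ≤ i} ⊆ ⋃ j : Iic i, range fun x => ee.symm ⟨j.1, x⟩ := by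
      intro v hv
      refine mem_iUnion.2 ⟨⟨lvK v, hv⟩, (ee v).2, ?_⟩
      show ee.symm (ee v) = v
      rw [Equiv.symm_apply_apply]
    show #({v : KK | lvK v ≤ i} : Set KK) ≤ 2 ^ th i
    refine (mk_le_mk_of_subset h1).trans (mk_iUnion_le_sum_mk.trans
      ((sum_le_sum _ (fun _ => 2 ^ th i) fun j : Iic i => ?_).trans ?_))
    · refine mk_range_le.trans ?_
      rw [mk_out]
      rcases (mem_Iic.1 j.2).eq_or_lt with h | h
      · rw [h]
      · exact (pow_th h).trans (cantor _).le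
    · rw [sum_const']
      have h2 : ℵ₀ ≤ (2 : Cardinal.{0}) ^ th i := (aleph0_le_beth _).trans (cantor _).le
      exact (mul_le_mul' ((ctb_Iic i).le_aleph0) le_rfl).trans (aleph0_mul_eq h2).le

theorem big : Big th KK where
  lt i := by
    rw [mk_KK]
    exact two_pow_lt i
  cof c hc := by
    rw [mk_KK] at hc
    obtain ⟨i, hi⟩ := exists_lt_th hc
    exact ⟨i, hi.le.trans (cantor _).le⟩
  inf := by
    rw [mk_KK]
    exact aleph0_le_kap

/-- functions with unbounded range on some level -/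
theorem exists_unbounded {M : Type} [LT M] (i : II) (τ : (2 ^ th i : Cardinal.{0}).out → M)
    (hτ : ∀ β, ∃ x, β < τ x) : ∃ π : KK → M, ∀ β, ∃ v, lvK v ≤ i ∧ β < π v := by
  classical
  let g : (2 ^ th i : Cardinal.{0}).out → KK := fun x => ee.symm ⟨i, x⟩
  have hg : Function.Injective g := by
    intro x x' h
    have h1 := ee.symm.injective h
    exact eq_of_heq (Sigma.mk.inj h1).2
  have hne : Nonempty (2 ^ th i : Cardinal.{0}).out := by
    rw [← mk_ne_zero_iff, mk_out]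
    exact (zero_le.trans_lt (cantor _)).ne'
  refine ⟨fun v => τ (Function.invFun g v), fun β => ?_⟩
  obtain ⟨x, hx⟩ := hτ β
  refine ⟨g x, ?_, ?_⟩
  · show (ee (ee.symm ⟨i, x⟩)).1 ≤ i
    rw [Equiv.apply_symm_apply]
  · show β < τ (Function.invFun g (g x))
    rw [Function.leftInverse_invFun hg x]
    exact hx

theorem exists_surj {A B : Type} [Nonempty B] (h : #B ≤ #A) :
    ∃ f : A → B, Function.Surjective f := by
  obtain ⟨e⟩ := h
  exact ⟨Function.invFun e, Function.invFun_surjective e.injective⟩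

theorem exists_pi {μ : Cardinal.{0}} (h0 : ℵ₀ ≤ μ) (hμ : μ ≤ kap) :
    ∃ (i : II) (π : KK → μ.ord.ToType), ∀ β, ∃ v, lvK v ≤ i ∧ β < π v := by
  have hne : Nonempty μ.ord.ToType := by
    rw [← mk_ne_zero_iff, mk_ord_toType]
    exact (aleph0_pos.trans_le h0).ne'
  have hmax : NoMaxOrder μ.ord.ToType := noMaxOrder h0
  rcases hμ.eq_or_lt with rfl | hlt
  · -- a cofinal function on the levels
    have hord : ∀ i : II, (th i).ord < kap.ord := fun i => by
      rw [ord_lt_ord]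
      exact (cantor _).trans (two_pow_lt i)
    let c : II → KK := fun i => ToType.mk ⟨_, hord i⟩
    have hc : ∀ β : KK, ∃ i, β < c i := by
      intro β
      have h1 : (ToType.mk.symm β : Ordinal) < kap.ord := (ToType.mk.symm β).2
      rw [lt_ord] at h1
      obtain ⟨i, hi⟩ := exists_lt_th h1
      refine ⟨i, ?_⟩
      rw [← ToType.mk.symm.lt_iff_lt]
      show (ToType.mk.symm β) < ToType.mk.symm (ToType.mk ⟨_, hord _⟩)
      rw [OrderIso.symm_apply_apply]
      show (ToType.mk.symm β : Ordinal) < (th i).ord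
      rw [lt_ord]
      exact hi
    have hneI : Nonempty II := by
      rw [← mk_ne_zero_iff, mk_ord_toType]
      exact (aleph_pos 1).ne'
    obtain ⟨i, -⟩ : ∃ i : II, True := ⟨hneI.some, trivial⟩
    have hsz : #II ≤ #(2 ^ th i : Cardinal.{0}).out := by
      rw [mk_ord_toType, mk_out]
      calc (ℵ_ 1 : Cardinal.{0}) ≤ 𝔠 := aleph_one_le_continuum
        _ = 2 ^ ℵ₀ := two_power_aleph0.symm
        _ ≤ 2 ^ th i := power_le_power_left two_ne_zero (aleph0_le_beth _)
    obtain ⟨s, hs⟩ := exists_surj hsz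
    refine ⟨i, exists_unbounded i (fun x => c (s x)) fun β => ?_⟩
    obtain ⟨j, hj⟩ := hc β
    obtain ⟨x, rfl⟩ := hs j
    exact ⟨x, hj⟩
  · obtain ⟨i, hi⟩ := exists_lt_th hlt
    have hsz : #μ.ord.ToType ≤ #(2 ^ th i : Cardinal.{0}).out := by
      rw [mk_ord_toType, mk_out]
      exact hi.le.trans (cantor _).le
    obtain ⟨s, hs⟩ := exists_surj hsz
    refine ⟨i, exists_unbounded i s fun β => ?_⟩
    obtain ⟨γ, hγ⟩ := exists_gt β
    obtain ⟨x, rfl⟩ := hs γ
    exact ⟨x, hγ⟩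

theorem exists_blk : ∃ blk : KK → KK, ∀ w, #{α // blk α = w} = #KK := by
  obtain ⟨e⟩ : Nonempty (KK ≃ KK × KK) := by
    rw [← Cardinal.eq, mk_prod]
    simp only [Cardinal.lift_id]
    exact (mul_eq_self big.inf).symm
  refine ⟨fun α => (e α).2, fun w => ?_⟩
  refine Cardinal.eq.2 ⟨⟨fun α => (e α.1).1, fun k => ⟨e.symm (k, w), ?_⟩, ?_, ?_⟩⟩
  · show (e (e.symm (k, w))).2 = w
    rw [Equiv.apply_symm_apply]
  · rintro ⟨α, hα⟩
    apply Subtype.ext
    show e.symm ((e α).1, w) = α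
    rw [← hα]
    show e.symm ((e α).1, (e α).2) = α
    simp
  · intro k
    show (e (e.symm (k, w))).1 = k
    rw [Equiv.apply_symm_apply]

theorem kap_pow : #KK ^ ℵ₀ = #KK := by
  have ho1 : (ℵ_ 1 : Cardinal.{0}).ord = ω₁ := ord_aleph 1
  refine le_antisymm ?_ (self_le_power _ (one_le_aleph0))
  have h1 : #(ℕ × KK) = #KK := by
    rw [mk_prod, Cardinal.lift_id, Cardinal.lift_id, mk_nat]
    exact mul_eq_right big.inf big.inf aleph0_ne_zero
  have hcof : ℵ₀ < (#(ℕ × KK)).ord.cof := by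
    rw [h1, mk_KK]
    have h2 : Order.IsNormal fun o : Ordinal.{0} => (ℶ_ o).ord :=
      isNormal_ord.comp isNormal_beth
    have h3 := cof_map_of_isNormal h2 succLimit
    show ℵ₀ < (ℶ_ (ℵ_ 1 : Cardinal.{0}).ord).ord.cof
    rw [h3, ho1, cof_omega_one]
    exact aleph0_lt_aleph_one
  have hsl : IsStrongPrelimit #(ℕ × KK) := by
    rw [h1, mk_KK]
    exact (isStrongLimit_beth.2 succLimit.isSuccPrelimit).isStrongPrelimit
  calc #KK ^ ℵ₀ = #(ℕ → KK) := by rw [mk_arrow, Cardinal.lift_id, Cardinal.lift_id, mk_nat]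
    _ ≤ #{s : Set (ℕ × KK) // #s < (#(ℕ × KK)).ord.cof} := by
      refine mk_le_of_injective (f := fun f => ⟨range fun n => (n, f n),
        mk_range_le.trans_lt (by rwa [mk_nat])⟩) fun f g h => ?_
      have h' : (range fun n => (n, f n)) = range fun n => (n, g n) := congrArg Subtype.val h
      funext n
      have h2 : (n, f n) ∈ range fun n => (n, g n) := by
        rw [← h']
        exact ⟨n, rfl⟩
      obtain ⟨m, hm⟩ := h2
      have h3 : m = n := congrArg Prod.fst hm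
      have h4 : g m = f n := congrArg Prod.snd hm
      rw [← h4, h3]
    _ = #(ℕ × KK) := mk_subset_mk_lt_cof hsl
    _ = #KK := h1

end Parameters

theorem exists_model : ∃ (κ ν : Cardinal.{0}) (P : Type) (_ : Preorder P), Nonempty P ∧
    ∀ p : P, p ∈ Model.{0, 0} P κ ν := by
  let ν : Cardinal.{0} := #(KK → KK)
  let J : Type := (Order.succ ν).out
  have hJ : #J = Order.succ ν := mk_out _
  have hνJ : ν < #J := by
    rw [hJ]
    exact Order.lt_succ ν
  have hν : ν = 2 ^ #KK := by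
    show #(KK → KK) = 2 ^ #KK
    rw [mk_arrow, Cardinal.lift_id]
    exact power_self_eq big.inf
  have hJne : Nonempty J := by
    rw [← mk_ne_zero_iff]
    exact (lt_of_le_of_lt zero_le hνJ).ne'
  have hKne : Nonempty KK := by
    rw [← mk_ne_zero_iff]
    exact (aleph0_pos.trans_le big.inf).ne'
  have hIne : Nonempty II := by
    rw [← mk_ne_zero_iff, mk_ord_toType]
    exact (aleph_pos 1).ne'
  have hI : #II ≤ #KK := by
    rw [mk_KK, mk_ord_toType]
    exact aleph_one_le_kap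
  have hneS : Nonempty (II × (J × KK)) := inferInstance
  obtain ⟨blk, hblk⟩ := exists_blk
  refine ⟨kap, ν, HC th lvK (lev1 II J KK) × Random KK, inferInstance, ?_, fun p => ?_⟩
  · refine ⟨⟨∅, fun _ => hKne.some, fun i => ?_, fun t ht => ht.elim⟩,
      ⟨Set.univ, MeasurableSet.univ, by simp⟩⟩
    have : IsEmpty {t : II × (J × KK) // t ∈ (∅ : Set (II × (J × KK))) ∧
        lev1 II J KK t ≤ i} := ⟨fun t => t.2.1⟩
    rw [mk_eq_zero]
    exact zero_le
  · refine ⟨staysCardinal good big p, continuumLe good big.inf kap_pow rfl p,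
      fun μ hμ => ?_, dLe good big (by rw [mk_out]) p, fun μ hμ0 hμ => ?_⟩
    · exact not_bLe good big (by rw [mk_out, mk_KK]; exact hμ) p
    · obtain ⟨i, π, hπ⟩ := exists_pi hμ0 hμ
      have hne : Nonempty μ.ord.ToType := by
        rw [← mk_ne_zero_iff, mk_ord_toType]
        exact (aleph0_pos.trans_le hμ0).ne'
      exact not_domLe good big hI i (by rw [mk_ord_toType, mk_KK]; exact hμ) π hπ hne blk hblk
        (by rw [← hν]; exact hνJ) (by rwa [mk_out]) p

end Pool.Agent.H630.MB
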