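import Pool.Agent.H630.MB.Force

/-!
# No small dominating families in the extension
-/

set_option autoImplicit false
set_option linter.unusedSectionVars false

namespace Pool.Agent.H630.MB

open Cardinal MeasureTheory Set Filter Topology
open Pool.Agent.TH773.PSet Pool.Agent.R593.Rnd Pool.Agent.R592.Ent
open scoped ENNReal

variable {I K J : Type} [LinearOrder I] {θ : I → Cardinal.{0}} {lv : K → I}

/-- the level of an element of `I × (J × K)` -/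
def lev1 (I J K : Type) : I × (J × K) → I := Prod.fst

theorem mk_dom {S : Type} {lev : S → I} (hB : Big θ K) (hI : #I ≤ #K) (p : HC θ lv lev) :
    #p.dom ≤ #K := by
  have h1 : p.dom ⊆ ⋃ i : I, {t | t ∈ p.dom ∧ lev t ≤ i} :=
    fun t ht => mem_iUnion.2 ⟨lev t, ht, le_rfl⟩
  refine (mk_le_mk_of_subset h1).trans (mk_iUnion_le_sum_mk.trans
    ((sum_le_sum _ (fun _ => #K) fun i : I => ?_).trans ?_))
  · exact (p.small i).trans ((cantor _).le.trans (hB.lt i).le)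
  · rw [sum_const']
    exact (mul_le_mul' hI le_rfl).trans (mul_eq_self hB.inf).le

theorem not_domLe [Nonempty J] [Nonempty K] (h : Good θ lv) (hB : Big θ K) (hI : #I ≤ #K)
    (i0 : I) {M : Type} [LT M] (hM : #M ≤ #K) (π : K → M)
    (hπ : ∀ β, ∃ v, lv v ≤ i0 ∧ β < π v) (hM0 : Nonempty M)
    (blk : K → K) (hblk : ∀ w, #{α // blk α = w} = #K)
    {Y : Type} (hKJ : 2 ^ #K < #J) (hYJ : #Y < #J)
    (p : HC θ lv (lev1 I J K) × Random K) :
    p ∈ fnot (DomLe (HC θ lv (lev1 I J K) × Random K) K M Y) := by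
  classical
  have hIne : Nonempty I := ⟨i0⟩
  have hne : Nonempty (I × (J × K)) := inferInstance
  intro q _ hq
  obtain ⟨r, _, D, hD1, hD2⟩ := mem_fex.1 hq q le_rfl
  have hKJ' : #K < #J := (cantor _).trans hKJ
  have hJ0 : ℵ₀ ≤ #J := hB.inf.trans hKJ'.le
  -- small families of conditions which decide the values
  have h1 : ∀ (y : Y) (α : K), ∃ F0 : Set (HC θ lv (lev1 I J K)),
      (∀ d ∈ F0, ∀ b : Random K, ∃ b' ≤ b, (∃ β, (d, b') ∈ meets (D y α β)) ∨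
        ∀ s, s ≤ (d, b') → ¬ s ≤ r) ∧
      (∃ A : Set (I × (J × K)), #A ≤ 2 ^ #K ∧ ∀ q ∈ F0, q.dom ⊆ A) ∧
      ∀ a, ∃ q ∈ F0, Agree a q := by
    intro y α
    have hdense : ∀ a : HC θ lv (lev1 I J K), ∃ a' ≤ a, ∀ b : Random K, ∃ b' ≤ b,
        (a', b') ∈ {p : HC θ lv (lev1 I J K) × Random K |
          (∃ β, p ∈ meets (D y α β)) ∨ ∀ s, s ≤ p → ¬ s ≤ r} := by
      intro a
      refine core h.inf ?_ ?_ a
      · rintro p (⟨β, hβ⟩ | hp) q hq
        · exact Or.inl ⟨β, (reg_meets _).1 _ hβ _ hq⟩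
        · exact Or.inr fun s hs => hp s (hs.trans hq)
      · intro p
        by_cases hp : ∃ s, s ≤ p ∧ s ≤ r
        · obtain ⟨s, hs, hs'⟩ := hp
          obtain ⟨t, ht, β, hβ⟩ := isFun_total ((reg_isFun _).1 r (hD1 y) s hs') α
          exact ⟨t, ht.trans hs, Or.inl ⟨β, hβ⟩⟩
        · push Not at hp
          exact ⟨p, le_rfl, Or.inr hp⟩
    obtain ⟨F0, hF0, -, ⟨A, hA, hA'⟩, hF0'⟩ := exists_small (θ := θ) (lv := lv)
      (lev := lev1 I J K) (Θ := K) hB.inf Set.univ Set.univ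
      (by rw [mk_univ]; exact (cantor _).le)
      {a' | ∀ b : Random K, ∃ b' ≤ b, (a', b') ∈ {p : HC θ lv (lev1 I J K) × Random K |
          (∃ β, p ∈ meets (D y α β)) ∨ ∀ s, s ≤ p → ¬ s ≤ r}}
      (fun p _ => by
        refine le_trans ?_ (mk_dom hB hI p)
        exact mk_le_of_injective (f := fun t => (⟨t.1, t.2.1⟩ : p.dom)) fun t t' h' =>
          Subtype.ext (congrArg (fun x : p.dom => x.1) h'))
      (fun p _ t _ _ => trivial)
    refine ⟨F0, fun d hd => hF0 hd, ⟨A, hA, fun q hq t ht => hA' q hq t ht trivial⟩,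
      fun a => ?_⟩
    obtain ⟨a', ha', hmem⟩ := hdense a
    obtain ⟨q, hq, hag⟩ := hF0' a' hmem
    have hag' : Agree a' q := fun t h1 h2 => hag t h1 h2 trivial
    exact ⟨q, hq, hag'.of_le_left ha'⟩
  choose F0 hd hAA hF0 using h1
  choose A hA hA' using hAA
  -- the support
  let SS : Set J := ⋃ u : Y × K, (fun t : I × (J × K) => t.2.1) '' A u.1 u.2
  obtain ⟨j, hj⟩ : ∃ j, j ∉ SS := by
    by_contra hcon
    push Not at hcon
    have h1 : #J ≤ #SS := by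
      rw [eq_univ_of_forall hcon, mk_univ]
    have h2 : #SS ≤ #Y * #K * 2 ^ #K := by
      refine (mk_iUnion_le_sum_mk).trans ((sum_le_sum _ (fun _ => 2 ^ #K) fun u => ?_).trans ?_)
      · exact mk_image_le.trans (hA u.1 u.2)
      · rw [sum_const', mk_prod]
        simp only [lift_id]
        exact le_rfl
    refine absurd (h1.trans h2) (not_le.2 ?_)
    exact mul_lt_of_lt hJ0 (mul_lt_of_lt hJ0 hYJ hKJ') hKJ
  -- the new function
  let tt : K → I × (J × K) := fun α => (i0, (j, blk α))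
  let f : K → M → Set (HC θ lv (lev1 I J K) × Random K) := fun α β =>
    {p | tt α ∈ p.1.dom ∧ π (p.1.val (tt α)) = β}
  have hfm : ∀ α β, ∀ p ∈ f α β, p ∈ meets (f α β) := by
    intro α β p hp s hs
    exact ⟨s, le_rfl, p, hp, hs⟩
  have hfm' : ∀ α β, ∀ p ∈ meets (f α β), ∃ s ≤ p, s ∈ f α β := by
    intro α β p hp
    obtain ⟨s, hs, t, ht, hst⟩ := hp p le_rfl
    refine ⟨s, hs, hst.1.1 ht.1, ?_⟩
    rw [hst.1.2 _ ht.1]
    exact ht.2
  have hdown : ∀ α β, ∀ p ∈ f α β, ∀ s ≤ p, s ∈ f α β := by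
    intro α β p hp s hs
    refine ⟨hs.1.1 hp.1, ?_⟩
    rw [hs.1.2 _ hp.1]
    exact hp.2
  have hfun : ∀ p, p ∈ IsFun f := by
    intro p
    refine ⟨fun α => mem_fex.2 fun s _ => ?_, fun α β β' hne s _ hs => ?_⟩
    · by_cases hdom : tt α ∈ s.1.dom
      · exact ⟨s, le_rfl, _, hfm _ _ _ ⟨hdom, rfl⟩⟩
      · obtain ⟨v, hv, -⟩ := hπ (Classical.arbitrary M)
        obtain ⟨a', ha1, ha2, ha3⟩ := exists_ext h.inf s.1 _ hdom v hv
        exact ⟨(a', s.2), ⟨ha1, le_rfl⟩, _, hfm _ _ _ ⟨ha2, rfl⟩⟩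
    · obtain ⟨t, ht, ht'⟩ := hfm' _ _ _ hs.1
      obtain ⟨t', htt, ht''⟩ := hfm' _ _ _ ((reg_meets _).1 _ hs.2 _ ht)
      exact hne ((hdown _ _ _ ht' _ htt).2.symm.trans ht''.2)
  obtain ⟨r1, hr1, h2⟩ := mem_fimp.1 (hD2 f) r le_rfl (hfun r)
  obtain ⟨r2, hr2, y, h3⟩ := mem_fex.1 h2 r1 le_rfl
  obtain ⟨r3, hr3, μ, h4⟩ := mem_fex.1 h3 r2 le_rfl
  obtain ⟨r4, hr4, hμ, h5⟩ := mem_fex.1 h4 r3 le_rfl
  obtain ⟨r5, hr5, R, hS1, hS2⟩ := mem_fex.1 h5 r4 le_rfl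
  obtain ⟨r6, hr6, C, hC2, hC'⟩ := small_range h hB
    (by rw [mk_out]; exact hμ.trans_le hM) hS1
  have hr6r : r6 ≤ r := hr6.trans (hr5.trans (hr4.trans (hr3.trans (hr2.trans hr1))))
  obtain ⟨w, hw⟩ : ∃ w, (i0, (j, w)) ∉ r6.1.dom := by
    by_contra hcon
    push Not at hcon
    have h6 : #K ≤ #{t // t ∈ r6.1.dom ∧ lev1 I J K t ≤ i0} :=
      mk_le_of_injective (f := fun w : K => ⟨(i0, (j, w)), hcon w, le_rfl⟩) fun w w' h =>
        congrArg (fun x : {t // t ∈ r6.1.dom ∧ lev1 I J K t ≤ i0} => x.1.2.2) h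
    exact absurd (h6.trans (r6.1.small i0)) (not_le.2 ((cantor _).trans (hB.lt i0)))
  obtain ⟨α, hα, hαC⟩ : ∃ α, blk α = w ∧ α ∉ C := by
    by_contra hcon
    push Not at hcon
    have h6 : #{α // blk α = w} ≤ #C :=
      mk_le_of_injective (f := fun α : {α // blk α = w} => (⟨α.1, hcon α.1 α.2⟩ : C))
        fun a a' h => Subtype.ext (congrArg (fun x : C => x.1) h)
    rw [hblk] at h6
    exact absurd h6 (not_le.2 hC2)
  obtain ⟨d, hdF, hi⟩ := hF0 y α r6.1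
  obtain ⟨a1, ha1, ha1', ha1d⟩ := exists_glue2 h.inf hi
  obtain ⟨b', hb', hdec⟩ := hd y α d hdF r6.2
  have hle : (a1, b') ≤ r6 := ⟨ha1, hb'⟩
  rcases hdec with ⟨β, hβ⟩ | hdec
  swap
  · exact hdec (a1, b') ⟨ha1', le_rfl⟩ (hle.trans hr6r)
  have hndom : (i0, (j, w)) ∉ a1.dom := by
    intro h
    rcases ha1d _ h with h | h
    · exact hw h
    · exact hj (mem_iUnion.2 ⟨(y, α), _, hA' y α d hdF h, rfl⟩)
  obtain ⟨η, hη, hβη⟩ := hπ β
  obtain ⟨a2, ha2, ha2d, ha2v⟩ := exists_ext h.inf a1 _ hndom η hη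
  have hle2 : (a2, b') ≤ (a1, b') := ⟨ha2, le_rfl⟩
  have htt : tt α = (i0, (j, w)) := by
    show (i0, (j, blk α)) = (i0, (j, w))
    rw [hα]
  have h6 : (a2, b') ∈ meets (f α (π η)) := by
    refine hfm _ _ _ ⟨?_, ?_⟩
    · rw [htt]
      exact ha2d
    · rw [htt]
      exact congrArg π ha2v
  have h7 : (a2, b') ∈ meets (D y α β) :=
    (reg_meets _).1 _ hβ _ ⟨ha2.trans ha1', le_rfl⟩
  have hle3 : (a2, b') ≤ r5 := (hle2.trans hle).trans hr6
  obtain ⟨s, hs, h8⟩ := mem_fimp.1 (hS2 α (π η) β hβη) (a2, b') hle3 ⟨h6, h7⟩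
  obtain ⟨s', hs', k, hk⟩ := mem_fex.1 h8 s le_rfl
  exact hαC (hC' k α s' (hs'.trans (hs.trans (hle2.trans hle))) hk)

end Pool.Agent.H630.MB
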