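import Pool.Agent.H630.MB.Cond

/-!
# Small families of conditions

Closing off under functions of infinite arity, and the fusion lemma.
-/

set_option autoImplicit false
set_option linter.unusedSectionVars false

namespace Pool.Agent.H630.MB

open Cardinal MeasureTheory Set Filter Topology
open Pool.Agent.TH773.PSet Pool.Agent.R593.Rnd Pool.Agent.R592.Ent
open scoped ENNReal

/-! ### Closing off -/

section Closure

variable {Θ : Type}

/-- partial functions from `Θ` to `V` -/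
abbrev PF (Θ V : Type) : Type := Σ B : Set Θ, (B → V)

/-- the arities of the constructors -/
abbrev Ar {Θ V : Type} (a : PF Θ V × Θ) : Type := a.1.1

theorem pow_pow (hΘ : ℵ₀ ≤ #Θ) {c : Cardinal.{0}} (hc : c ≤ #Θ) :
    ((2 : Cardinal.{0}) ^ #Θ) ^ c ≤ 2 ^ #Θ := by
  rw [← power_mul]
  refine power_le_power_left two_ne_zero ?_
  exact (mul_le_mul' le_rfl hc).trans (mul_eq_self hΘ).le

theorem aleph0_le_two_pow (hΘ : ℵ₀ ≤ #Θ) : ℵ₀ ≤ (2 : Cardinal.{0}) ^ #Θ :=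
  hΘ.trans (cantor _).le

theorem mk_pf (hΘ : ℵ₀ ≤ #Θ) {V : Type} (hV : #V ≤ 2 ^ #Θ) : #(PF Θ V) ≤ 2 ^ #Θ := by
  rw [mk_sigma]
  refine (sum_le_sum _ (fun _ => 2 ^ #Θ) fun B => ?_).trans ?_
  · rw [mk_arrow, lift_id, lift_id]
    exact (power_le_power_right hV).trans (pow_pow hΘ (mk_set_le B))
  · rw [sum_const', mk_set]
    exact (mul_eq_self (aleph0_le_two_pow hΘ)).le

theorem mk_code (hΘ : ℵ₀ ≤ #Θ) {V : Type} (hV : #V ≤ 2 ^ #Θ) :
    #(WType (Ar (Θ := Θ) (V := V))) ≤ 2 ^ #Θ := by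
  refine WType.cardinalMk_le_of_le' ?_
  refine (sum_le_sum _ (fun _ => 2 ^ #Θ) fun a => ?_).trans ?_
  · rw [lift_id]
    exact pow_pow hΘ (mk_set_le _)
  · rw [sum_const', mk_prod, lift_id, lift_id]
    calc _ ≤ 2 ^ #Θ * 2 ^ #Θ * 2 ^ #Θ :=
          mul_le_mul' (mul_le_mul' (mk_pf hΘ hV) (cantor _).le) le_rfl
      _ = 2 ^ #Θ := by
        rw [mul_eq_self (aleph0_le_two_pow hΘ), mul_eq_self (aleph0_le_two_pow hΘ)]

/-- Closing off under a function of infinite arity. -/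
theorem close_off {V S' PP : Type} [Nonempty S'] (hΘ : ℵ₀ ≤ #Θ) (hV : #V ≤ 2 ^ #Θ)
    (supp : PP → Set S') (hsupp : ∀ p, #(supp p) ≤ #Θ)
    (Φ : (c : PF Θ V) → (c.1 → S') → PP) :
    ∃ A : Set S', #A ≤ 2 ^ #Θ ∧ ∀ (c : PF Θ V) (s : c.1 → S'), (∀ n, s n ∈ A) →
      supp (Φ c s) ⊆ A := by
  classical
  have hne : Nonempty Θ := by
    rw [← mk_ne_zero_iff]
    exact (aleph0_pos.trans_le hΘ).ne'
  have henum : ∀ p : PP, ∃ e : Θ → S', supp p ⊆ range e := by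
    intro p
    rcases (supp p).eq_empty_or_nonempty with h | h
    · exact ⟨fun _ => Classical.arbitrary S', by rw [h]; exact empty_subset _⟩
    · obtain ⟨e⟩ := hsupp p
      have := h.to_subtype
      refine ⟨fun n => (Function.invFun e n : supp p), fun t ht => ⟨e ⟨t, ht⟩, ?_⟩⟩
      exact congrArg Subtype.val (Function.leftInverse_invFun e.injective ⟨t, ht⟩)
  choose e he using henum
  let val : WType (Ar (Θ := Θ) (V := V)) → S' := fun t => WType.elim S'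
    (fun x : Σ a : PF Θ V × Θ, (Ar a → S') => e (Φ x.1.1 x.2) x.1.2) t
  refine ⟨range val, mk_range_le.trans (mk_code hΘ hV), fun c s hs t ht => ?_⟩
  choose f hf using hs
  obtain ⟨k, rfl⟩ := he _ ht
  refine ⟨WType.mk (c, k) f, ?_⟩
  have h1 : (fun n => val (f n)) = s := funext hf
  show e (Φ c fun n => val (f n)) k = _
  rw [h1]

end Closure

variable {I K S : Type} [LinearOrder I] {θ : I → Cardinal.{0}} {lv : K → I} {lev : S → I}

/-- A family of conditions whose parts on `L` are small contains a small subfamily such that each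
member of the family agrees on `L` with a member of the subfamily. -/
theorem exists_small [Nonempty S] {Θ : Type} (hΘ : ℵ₀ ≤ #Θ) (L : Set S) (V : Set K)
    (hV : #V ≤ 2 ^ #Θ) (F : Set (HC θ lv lev)) (hF : ∀ p ∈ F, #{t // t ∈ p.dom ∧ t ∈ L} ≤ #Θ)
    (hFV : ∀ p ∈ F, ∀ t ∈ p.dom, t ∈ L → p.val t ∈ V) :
    ∃ F0 : Set (HC θ lv lev), F0 ⊆ F ∧ #F0 ≤ 2 ^ #Θ ∧
      (∃ A : Set S, #A ≤ 2 ^ #Θ ∧ ∀ q ∈ F0, ∀ t ∈ q.dom, t ∈ L → t ∈ A) ∧
      ∀ p ∈ F, ∃ q ∈ F0, AgreeOn L p q := by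
  classical
  rcases F.eq_empty_or_nonempty with hemp | ⟨p0, hp0⟩
  · refine ⟨∅, empty_subset _, by simp, ⟨∅, by simp, fun q hq => hq.elim⟩, fun p hp => ?_⟩
    rw [hemp] at hp
    exact hp.elim
  let Q : (c : PF Θ V) → (c.1 → S) → HC θ lv lev → Prop := fun c s p =>
    p ∈ F ∧ ∀ n, s n ∈ p.dom ∧ p.val (s n) = c.2 n
  let Φ : (c : PF Θ V) → (c.1 → S) → F := fun c s =>
    if h : ∃ p, Q c s p then ⟨h.choose, h.choose_spec.1⟩ else ⟨p0, hp0⟩
  obtain ⟨A, hA, hA'⟩ := close_off hΘ hV (fun p : F => {t | t ∈ p.1.dom ∧ t ∈ L})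
    (fun p => hF p.1 p.2) Φ
  let G : (Σ c : PF Θ V, (c.1 → A)) → HC θ lv lev := fun x => (Φ x.1 fun n => (x.2 n).1).1
  refine ⟨range G, ?_, ?_, ⟨A, hA, ?_⟩, ?_⟩
  · rintro _ ⟨x, rfl⟩
    exact (Φ x.1 fun n => (x.2 n).1).2
  · refine mk_range_le.trans ?_
    rw [mk_sigma]
    refine (sum_le_sum _ (fun _ => 2 ^ #Θ) fun c => ?_).trans ?_
    · rw [mk_arrow, lift_id, lift_id]
      exact (power_le_power_right hA).trans (pow_pow hΘ (mk_set_le _))
    · rw [sum_const']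
      exact (mul_le_mul' (mk_pf hΘ hV) le_rfl).trans (mul_eq_self (aleph0_le_two_pow hΘ)).le
  · rintro _ ⟨x, rfl⟩ t ht htL
    exact hA' x.1 (fun n => (x.2 n).1) (fun n => (x.2 n).2) ⟨ht, htL⟩
  · intro p hp
    -- the enumeration of the part of `p` on `A`
    obtain ⟨e⟩ := hF p hp
    let B : Set Θ := {n | ∃ t : {t // t ∈ p.dom ∧ t ∈ L}, t.1 ∈ A ∧ e t = n}
    choose tt htA hte using fun n : B => n.2
    let c : PF Θ V := ⟨B, fun n => ⟨p.val (tt n).1, hFV p hp _ (tt n).2.1 (tt n).2.2⟩⟩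
    let x : Σ c : PF Θ V, (c.1 → A) := ⟨c, fun n => ⟨(tt n).1, htA n⟩⟩
    refine ⟨G x, ⟨x, rfl⟩, fun t h1 h2 h3 => ?_⟩
    have hex : ∃ q, Q c (fun n => (tt n).1) q := ⟨p, hp, fun n => ⟨(tt n).2.1, rfl⟩⟩
    have hG : G x = hex.choose := by
      show (Φ c fun n => (tt n).1).1 = hex.choose
      simp only [Φ, dif_pos hex]
    have htA' : t ∈ A := hA' x.1 (fun n => (x.2 n).1) (fun n => (x.2 n).2) ⟨h2, h3⟩
    have hn : e ⟨t, h1, h3⟩ ∈ B := ⟨⟨t, h1, h3⟩, htA', rfl⟩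
    have htt : tt ⟨_, hn⟩ = ⟨t, h1, h3⟩ := e.injective (hte ⟨_, hn⟩)
    have h4 := (hex.choose_spec.2 ⟨_, hn⟩).2
    have h5 : (tt ⟨_, hn⟩).1 = t := by rw [htt]
    rw [← hG] at h4
    simp only [] at h4
    rw [h5] at h4
    rw [h4]
    show p.val t = p.val (tt ⟨_, hn⟩).1
    rw [h5]

end Pool.Agent.H630.MB
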